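import Pool.Agent.Lib_helper61.Robin.LB

/-!
# Robin project, block EN: energy estimates for normalised ground states
-/

namespace Pool.Agent.Lib_helper61.Robin

open MeasureTheory Set Metric Filter Topology
open scoped RealInnerProductSpace ContDiff
open Pool.Agent.Lib_helper13.Robin

noncomputable section

variable {d m : ℕ} (P : PD d m)

theorem rb_bdI_lin {f g : E d → ℝ} (hf : ContinuousOn f P.cl) (hg : ContinuousOn g P.cl)
    (a b : ℝ) : P.bdI (fun x => a * f x + b * g x) = a * P.bdI f + b * P.bdI g := by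
  unfold PD.bdI
  rw [integral_add ((rb_int_bd P hf).const_mul a) ((rb_int_bd P hg).const_mul b),
    integral_const_mul, integral_const_mul]

theorem rb_bdI_lin' {f g k : E d → ℝ} (hf : ContinuousOn f P.cl) (hg : ContinuousOn g P.cl)
    (a b : ℝ) (h : ∀ x, k x = a * f x + b * g x) : P.bdI k = a * P.bdI f + b * P.bdI g := by
  rw [← rb_bdI_lin P hf hg]
  congr 1; ext x; exact h x

theorem rb_om_lin {f g : E d → ℝ} (hf : IntegrableOn f P.Om) (hg : IntegrableOn g P.Om)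
    (a b : ℝ) : ∫ x in P.Om, (a * f x + b * g x) = a * (∫ x in P.Om, f x) +
      b * ∫ x in P.Om, g x := by
  rw [integral_add (hf.const_mul a) (hg.const_mul b), integral_const_mul, integral_const_mul]

theorem rb_om_lin' {f g k : E d → ℝ} (hf : IntegrableOn f P.Om) (hg : IntegrableOn g P.Om)
    (a b : ℝ) (h : ∀ x, k x = a * f x + b * g x) : ∫ x in P.Om, k x = a * (∫ x in P.Om, f x) +
      b * ∫ x in P.Om, g x := by
  rw [← rb_om_lin P hf hg]
  congr 1; ext x; exact h x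

theorem rb_cs_bd {w : E d → ℝ} (hw : ContinuousOn w P.cl) :
    P.bdI w ^ 2 ≤ P.bdI (fun _ => 1) * P.bdI (fun x => w x ^ 2) := by
  have h : ∀ t : ℝ, 0 ≤ P.bdI (fun _ => 1) * (t * t) + (2 * P.bdI w) * t +
      P.bdI (fun x => w x ^ 2) := by
    intro t
    have h1 : 0 ≤ P.bdI (fun x => (w x + t) ^ 2) := rb_bdI_nonneg P fun x _ => sq_nonneg _
    have c1 : ContinuousOn (fun x => w x ^ 2) P.cl := hw.pow 2
    have c2 : ContinuousOn (fun x => 2 * t * w x + t ^ 2 * 1) P.cl :=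
      (continuousOn_const.mul hw).add continuousOn_const
    have h2 := rb_bdI_lin' P (k := fun x => (w x + t) ^ 2) c1 c2 1 1 (fun x => by ring)
    have h3 := rb_bdI_lin' P (k := fun x => 2 * t * w x + t ^ 2 * 1) hw
      (continuousOn_const (c := (1 : ℝ))) (2 * t) (t ^ 2) (fun x => by ring)
    rw [h2, h3] at h1
    linarith
  have := discrim_le_zero h
  unfold discrim at this
  nlinarith

theorem rb_cross_bound {Ω : Type*} [MeasurableSpace Ω] {μ : Measure Ω} {f g : Ω → ℝ}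
    (hf : Integrable (fun x => f x ^ 2) μ) (hg : Integrable (fun x => g x ^ 2) μ) :
    |∫ x, f x * (f x - g x) ∂μ| ≤ 3 / 2 * (∫ x, f x ^ 2 ∂μ) + 1 / 2 * ∫ x, g x ^ 2 ∂μ := by
  have h := norm_integral_le_of_norm_le (f := fun x => f x * (f x - g x))
    ((hf.const_mul (3 / 2)).add (hg.const_mul (1 / 2))) (Eventually.of_forall fun x => by
      simp only [Pi.add_apply]
      rw [Real.norm_eq_abs, abs_le]
      constructor <;> nlinarith [sq_nonneg (f x - g x), sq_nonneg (f x + g x), sq_nonneg (f x),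
        sq_nonneg (g x)])
  rw [Real.norm_eq_abs] at h
  simp only [Pi.add_apply] at h
  rwa [integral_add (hf.const_mul _) (hg.const_mul _), integral_const_mul,
    integral_const_mul] at h

theorem rb_en_alg {X Y Z S B al lam CP CT mu vol : ℝ} (hX : 0 ≤ X) (hZ : 0 ≤ Z) (hB : 0 ≤ B)
    (hal : 0 < al) (hCP : 0 < CP) (hCT : 0 < CT) (hvol : 0 < vol) (hmu : mu = B / vol)
    (h1 : X + al * (Z + S) = lam * Y) (h2 : al * (B + S) = lam * vol) (h3 : Y ≤ CP * X)
    (h4 : Z ≤ CT * (Y + X)) (h5 : S ^ 2 ≤ B * Z) (hl0 : 0 ≤ lam) (hl : lam ≤ mu * al)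
    (ha : mu * al * CP ≤ 1 / 2) :
    X ≤ 4 * B * (CT * (CP + 1)) * al ^ 2 ∧ |lam - mu * al| ≤ 2 * B * (CT * (CP + 1)) / vol * al ^ 2
      := by
  have hZK : Z ≤ CT * (CP + 1) * X := by
    calc Z ≤ CT * (Y + X) := h4
      _ ≤ CT * (CP * X + X) := by gcongr
      _ = _ := by ring
  have hK : 0 < CT * (CP + 1) := by positivity
  set K := CT * (CP + 1)
  have hX1 : X ≤ 2 * al * |S| := by
    have e1 : lam * Y ≤ 1 / 2 * X := by
      calc lam * Y ≤ lam * (CP * X) := by gcongr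
        _ ≤ (mu * al) * (CP * X) := by gcongr
        _ = (mu * al * CP) * X := by ring
        _ ≤ 1 / 2 * X := by gcongr
    have e2 : -S ≤ |S| := neg_le_abs S
    have e3 : al * (-S) ≤ al * |S| := by gcongr
    have e4 : 0 ≤ al * Z := by positivity
    linarith
  have hX2 : X ≤ 4 * B * K * al ^ 2 := by
    rcases hX.eq_or_lt with h0 | h0
    · rw [← h0]; positivity
    · have e1 : X ^ 2 ≤ (2 * al * |S|) ^ 2 := by gcongr
      have e2 : (2 * al * |S|) ^ 2 = 4 * al ^ 2 * S ^ 2 := by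
        rw [mul_pow, mul_pow, sq_abs]; ring
      have e3 : 4 * al ^ 2 * S ^ 2 ≤ 4 * al ^ 2 * (B * (K * X)) := by gcongr; exact h5.trans (by gcongr)
      have e4 : X * X ≤ (4 * B * K * al ^ 2) * X := by nlinarith
      exact le_of_mul_le_mul_right e4 h0
  refine ⟨hX2, ?_⟩
  have hS2 : S ^ 2 ≤ (2 * B * K * al) ^ 2 := by
    calc S ^ 2 ≤ B * Z := h5
      _ ≤ B * (K * X) := by gcongr
      _ ≤ B * (K * (4 * B * K * al ^ 2)) := by gcongr
      _ = _ := by ring
  have hS : |S| ≤ 2 * B * K * al := by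
    exact abs_le_of_sq_le_sq hS2 (by positivity)
  have e1 : lam - mu * al = al * S / vol := by
    rw [hmu]; field_simp; linarith
  rw [e1, abs_div, abs_mul, abs_of_pos hal, abs_of_pos hvol, div_mul_eq_mul_div]
  apply div_le_div_of_nonneg_right _ hvol.le
  calc al * |S| ≤ al * (2 * B * K * al) := by gcongr
    _ = _ := by ring

/-- **EN.** energy estimates for normalised ground states -/
theorem energy : ∃ a1 > 0, ∃ C > 0,
    (∀ (α lam : ℝ) (u : E d → ℝ), 0 < α → α < a1 → RGS P.Om α lam u →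
      ∫ x in P.Om, u x = P.vol →
      ∫ x in P.Om, ‖gradient u x‖ ^ 2 ≤ C * α ^ 2 ∧ ∫ x in P.Om, (u x - 1) ^ 2 ≤ C * α ^ 2 ∧
      P.bdI (fun x => (u x - 1) ^ 2) ≤ C * α ^ 2 ∧ |lam - P.mu * α| ≤ C * α ^ 2) ∧
    (∀ (α α' lam lam' : ℝ) (u u' : E d → ℝ), 0 < α → α < a1 → 0 < α' → α' < a1 →
      RGS P.Om α lam u → RGS P.Om α' lam' u' →
      ∫ x in P.Om, u x = P.vol → ∫ x in P.Om, u' x = P.vol →
      ∫ x in P.Om, ‖α⁻¹ • gradient u x - α'⁻¹ • gradient u' x‖ ^ 2 ≤ C * (α + α') ∧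
      ∫ x in P.Om, (α⁻¹ * (u x - 1) - α'⁻¹ * (u' x - 1)) ^ 2 ≤ C * (α + α')) := by
  obtain ⟨CP, hCP, hPo⟩ := poincare P
  obtain ⟨CT, hCT, hTr⟩ := trace_ineq P
  have hv := P.vol_pos
  have hB : 0 ≤ P.bdI (fun _ => 1) := rb_bdI_nonneg P fun x _ => zero_le_one
  have hmu0 : 0 ≤ P.mu := div_nonneg hB hv.le
  have hvol1 : ∫ x in P.Om, (1 : ℝ) = P.vol := by simp [PD.vol, Measure.real]
  set K := CT * (CP + 1) with hKdef
  have hK : 0 < K := by positivity
  set B := P.bdI (fun _ => 1) with hBdef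
  obtain ⟨C1, hC1⟩ : ∃ C1, C1 = 4 * B * K * (1 + CP + K) + 2 * B * K / P.vol + 1 := ⟨_, rfl⟩
  have hC1p : 0 < C1 := by rw [hC1]; positivity
  -- first part
  have part1 : ∀ (α lam : ℝ) (u : E d → ℝ), 0 < α → α < (2 * P.mu * CP + 1)⁻¹ →
      RGS P.Om α lam u → ∫ x in P.Om, u x = P.vol →
      ∫ x in P.Om, ‖gradient u x‖ ^ 2 ≤ C1 * α ^ 2 ∧ ∫ x in P.Om, (u x - 1) ^ 2 ≤ C1 * α ^ 2 ∧
      P.bdI (fun x => (u x - 1) ^ 2) ≤ C1 * α ^ 2 ∧ |lam - P.mu * α| ≤ C1 * α ^ 2 := by
    intro α lam u hα hα1 h hn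
    have hH := rb_RGS_HH P h
    have hw : HH P (fun x => 1 * u x + 0 * u x + (-1)) := hH.lin hH 1 0 (-1)
    have hwe : (fun x => 1 * u x + 0 * u x + (-1)) = fun x => u x - 1 := by ext x; ring
    have hgw : ∀ x ∈ P.Om, gradient (fun x => u x - 1) x = gradient u x := by
      intro x hx
      rw [← hwe, rb_grad_lin (hH.diff hx) (hH.diff hx)]; simp
    rw [hwe] at hw
    have hui := rb_int_om P hH.c
    have hwi := rb_int_om P hw.c
    have hw0 : ∫ x in P.Om, (u x - 1) = 0 := by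
      rw [integral_sub hui (integrable_const _), hn, hvol1, sub_self]
    have hX : 0 ≤ ∫ x in P.Om, ‖gradient u x‖ ^ 2 :=
      setIntegral_nonneg P.measurableSet_Om fun x _ => by positivity
    have hZ : 0 ≤ P.bdI (fun x => (u x - 1) ^ 2) := rb_bdI_nonneg P fun x _ => sq_nonneg _
    have hXw : ∫ x in P.Om, ‖gradient (fun x => u x - 1) x‖ ^ 2 =
        ∫ x in P.Om, ‖gradient u x‖ ^ 2 :=
      setIntegral_congr_fun P.measurableSet_Om fun x hx => by simp only [hgw x hx]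
    have e1 := rb_weak P h hw
    have e1a : ∫ x in P.Om, ⟪gradient u x, gradient (fun x => u x - 1) x⟫ =
        ∫ x in P.Om, ‖gradient u x‖ ^ 2 :=
      setIntegral_congr_fun P.measurableSet_Om fun x hx => by
        simp only [hgw x hx, real_inner_self_eq_norm_sq]
    have hw2c : ContinuousOn (fun x => (u x - 1) ^ 2) P.cl := hw.c.pow 2
    have e1b : P.bdI (fun x => u x * (u x - 1)) = P.bdI (fun x => (u x - 1) ^ 2) +
        P.bdI (fun x => u x - 1) := by
      have := rb_bdI_lin' P (k := fun x => u x * (u x - 1)) hw2c hw.c 1 1 (fun x => by ring)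
      rwa [one_mul, one_mul] at this
    have e1c : ∫ x in P.Om, u x * (u x - 1) = ∫ x in P.Om, (u x - 1) ^ 2 := by
      have := rb_om_lin' P (k := fun x => u x * (u x - 1)) (rb_int_om P hw2c) hwi 1 1
        (fun x => by ring)
      rwa [hw0, mul_zero, add_zero, one_mul] at this
    rw [e1a, e1b, e1c] at e1
    have e2 := rb_one P h
    have e2a : P.bdI u = B + P.bdI (fun x => u x - 1) := by
      have := rb_bdI_lin' P (k := u) (continuousOn_const (c := (1 : ℝ))) hw.c 1 1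
        (fun x => by ring)
      rwa [one_mul, one_mul] at this
    rw [e2a, hn] at e2
    have e3 := hPo _ hw.s (rb_int_om P (hw.c.pow 2)) hw.g hw0
    rw [hXw] at e3
    have e4 := hTr _ hw.c hw.s hw.g
    rw [hXw] at e4
    have e5 := rb_cs_bd P hw.c
    obtain ⟨hl0, hl⟩ := lam_bound P hα h
    have ha : P.mu * α * CP ≤ 1 / 2 := by
      have h6 : α * (2 * P.mu * CP + 1) ≤ 1 := by
        have h7 : α ≤ (2 * P.mu * CP + 1)⁻¹ := hα1.le
        have h8 : 0 < 2 * P.mu * CP + 1 := by positivity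
        calc α * (2 * P.mu * CP + 1) ≤ (2 * P.mu * CP + 1)⁻¹ * (2 * P.mu * CP + 1) := by gcongr
          _ = 1 := inv_mul_cancel₀ h8.ne'
      nlinarith
    obtain ⟨r1, r2⟩ := rb_en_alg hX hZ hB hα hCP hCT hv (rfl : P.mu = B / P.vol) e1 e2 e3 e4 e5
      hl0 hl ha
    have hα2 : 0 ≤ α ^ 2 := by positivity
    have hBK : 0 ≤ 4 * B * K := by positivity
    have hX2 : ∫ x in P.Om, ‖gradient u x‖ ^ 2 ≤ 4 * B * K * α ^ 2 := r1
    have hY2 : ∫ x in P.Om, (u x - 1) ^ 2 ≤ CP * (4 * B * K * α ^ 2) :=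
      e3.trans (by gcongr)
    have hZ2 : P.bdI (fun x => (u x - 1) ^ 2) ≤ K * (4 * B * K * α ^ 2) := by
      calc P.bdI (fun x => (u x - 1) ^ 2) ≤ CT * ((∫ x in P.Om, (u x - 1) ^ 2) +
            ∫ x in P.Om, ‖gradient u x‖ ^ 2) := e4
        _ ≤ CT * (CP * (4 * B * K * α ^ 2) + 4 * B * K * α ^ 2) := by gcongr
        _ = _ := by rw [hKdef]; ring
    have t1 : 0 ≤ 4 * B * K * α ^ 2 := by positivity
    have t2 : 0 ≤ CP * (4 * B * K * α ^ 2) := by positivity
    have t3 : 0 ≤ K * (4 * B * K * α ^ 2) := by positivity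
    have t4 : 0 ≤ 2 * B * K / P.vol * α ^ 2 := by positivity
    have t5 : C1 * α ^ 2 = 4 * B * K * α ^ 2 + CP * (4 * B * K * α ^ 2) +
        K * (4 * B * K * α ^ 2) + 2 * B * K / P.vol * α ^ 2 + α ^ 2 := by rw [hC1]; ring
    refine ⟨by linarith, by linarith, by linarith, by linarith⟩
  refine ⟨(2 * P.mu * CP + 1)⁻¹, by positivity, C1 + 4 * C1 * (P.mu + 1) * (1 + CP), by positivity,
    ?_, ?_⟩
  · intro α lam u hα hα1 h hn
    obtain ⟨h1, h2, h3, h4⟩ := part1 α lam u hα hα1 h hn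
    have t : C1 * α ^ 2 ≤ (C1 + 4 * C1 * (P.mu + 1) * (1 + CP)) * α ^ 2 := by
      gcongr
      have : 0 ≤ 4 * C1 * (P.mu + 1) * (1 + CP) := by positivity
      linarith
    exact ⟨h1.trans t, h2.trans t, h3.trans t, h4.trans t⟩
  · intro α α' lam lam' u u' hα hα1 hα' hα1' h h' hn hn'
    obtain ⟨-, a2, a3, -⟩ := part1 α lam u hα hα1 h hn
    obtain ⟨-, b2, b3, -⟩ := part1 α' lam' u' hα' hα1' h' hn'
    obtain ⟨hl0, hl⟩ := lam_bound P hα h
    obtain ⟨hl0', hl'⟩ := lam_bound P hα' h'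
    have hH := rb_RGS_HH P h
    have hH' := rb_RGS_HH P h'
    -- v, v', z
    have hvc : ContinuousOn (fun x => α⁻¹ * (u x - 1)) P.cl :=
      continuousOn_const.mul (hH.c.sub continuousOn_const)
    have hvc' : ContinuousOn (fun x => α'⁻¹ * (u' x - 1)) P.cl :=
      continuousOn_const.mul (hH'.c.sub continuousOn_const)
    have hz : HH P (fun x => α⁻¹ * u x + (-α'⁻¹) * u' x + (α'⁻¹ - α⁻¹)) := hH.lin hH' _ _ _
    have hze : (fun x => α⁻¹ * u x + (-α'⁻¹) * u' x + (α'⁻¹ - α⁻¹)) =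
        fun x => α⁻¹ * (u x - 1) - α'⁻¹ * (u' x - 1) := by ext x; ring
    have hgz : ∀ x ∈ P.Om, gradient (fun x => α⁻¹ * (u x - 1) - α'⁻¹ * (u' x - 1)) x =
        α⁻¹ • gradient u x - α'⁻¹ • gradient u' x := by
      intro x hx
      rw [← hze, rb_grad_lin (hH.diff hx) (hH'.diff hx), neg_smul, ← sub_eq_add_neg]
    rw [hze] at hz
    set z : E d → ℝ := fun x => α⁻¹ * (u x - 1) - α'⁻¹ * (u' x - 1) with hzdef
    have hw0 : ∫ x in P.Om, (u x - 1) = 0 := by
      rw [integral_sub (rb_int_om P hH.c) (integrable_const _), hn, hvol1, sub_self]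
    have hw0' : ∫ x in P.Om, (u' x - 1) = 0 := by
      rw [integral_sub (rb_int_om P hH'.c) (integrable_const _), hn', hvol1, sub_self]
    have hz0 : ∫ x in P.Om, z x = 0 := by
      rw [hzdef, integral_sub (rb_int_om P hvc) (rb_int_om P hvc'), integral_const_mul,
        integral_const_mul, hw0, hw0']
      simp
    -- gradients
    have hD : ∫ x in P.Om, ‖gradient z x‖ ^ 2 =
        α⁻¹ * (∫ x in P.Om, ⟪gradient u x, gradient z x⟫) +
        (-α'⁻¹) * ∫ x in P.Om, ⟪gradient u' x, gradient z x⟫ := by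
      rw [← rb_om_lin P (hH.inner_int hz) (hH'.inner_int hz)]
      refine setIntegral_congr_fun P.measurableSet_Om fun x hx => ?_
      have : ‖gradient z x‖ ^ 2 = ⟪α⁻¹ • gradient u x - α'⁻¹ • gradient u' x, gradient z x⟫ := by
        rw [← hgz x hx, real_inner_self_eq_norm_sq]
      change ‖gradient z x‖ ^ 2 = _
      rw [this, inner_sub_left, real_inner_smul_left, real_inner_smul_left]
      ring
    have w1 := rb_weak P h hz
    have w2 := rb_weak P h' hz
    have hvz : ContinuousOn (fun x => α⁻¹ * (u x - 1) * z x) P.cl := hvc.mul hz.c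
    have hvz' : ContinuousOn (fun x => α'⁻¹ * (u' x - 1) * z x) P.cl := hvc'.mul hz.c
    have l1 : ∫ x in P.Om, u x * z x = α * ∫ x in P.Om, (α⁻¹ * (u x - 1)) * z x := by
      have := rb_om_lin' P (k := fun x => u x * z x) (rb_int_om P hz.c) (rb_int_om P hvz) 1 α
        (fun x => by field_simp; ring)
      rwa [hz0, mul_zero, zero_add] at this
    have l2 : ∫ x in P.Om, u' x * z x = α' * ∫ x in P.Om, (α'⁻¹ * (u' x - 1)) * z x := by
      have := rb_om_lin' P (k := fun x => u' x * z x) (rb_int_om P hz.c) (rb_int_om P hvz') 1 α'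
        (fun x => by field_simp; ring)
      rwa [hz0, mul_zero, zero_add] at this
    have b1 : P.bdI (fun x => u x * z x) = P.bdI z +
        α * P.bdI (fun x => (α⁻¹ * (u x - 1)) * z x) := by
      have := rb_bdI_lin' P (k := fun x => u x * z x) hz.c hvz 1 α
        (fun x => by field_simp; ring)
      rwa [one_mul] at this
    have b1' : P.bdI (fun x => u' x * z x) = P.bdI z +
        α' * P.bdI (fun x => (α'⁻¹ * (u' x - 1)) * z x) := by
      have := rb_bdI_lin' P (k := fun x => u' x * z x) hz.c hvz' 1 α'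
        (fun x => by field_simp; ring)
      rwa [one_mul] at this
    -- bounds of the L² norms
    have sc : ∀ (a : ℝ) (f : E d → ℝ), 0 < a → ∫ x in P.Om, (f x - 1) ^ 2 ≤ C1 * a ^ 2 →
        ∫ x in P.Om, (a⁻¹ * (f x - 1)) ^ 2 ≤ C1 := by
      intro a f ha hf
      have : ∫ x in P.Om, (a⁻¹ * (f x - 1)) ^ 2 = (a ^ 2)⁻¹ * ∫ x in P.Om, (f x - 1) ^ 2 := by
        rw [← integral_const_mul]; congr 1; ext x; ring
      rw [this, inv_mul_le_iff₀ (by positivity)]; linarith
    have sb : ∀ (a : ℝ) (f : E d → ℝ), 0 < a → P.bdI (fun x => (f x - 1) ^ 2) ≤ C1 * a ^ 2 →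
        P.bdI (fun x => (a⁻¹ * (f x - 1)) ^ 2) ≤ C1 := by
      intro a f ha hf
      have : P.bdI (fun x => (a⁻¹ * (f x - 1)) ^ 2) = (a ^ 2)⁻¹ * P.bdI (fun x => (f x - 1) ^ 2) := by
        unfold PD.bdI
        rw [← integral_const_mul]; congr 1; ext x; ring
      rw [this, inv_mul_le_iff₀ (by positivity)]; linarith
    have n1 := sc α u hα a2
    have n2 := sc α' u' hα' b2
    have n3 := sb α u hα a3
    have n4 := sb α' u' hα' b3
    have c1 : |∫ x in P.Om, (α⁻¹ * (u x - 1)) * z x| ≤ 2 * C1 := by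
      have := rb_cross_bound (rb_int_om P (hvc.pow 2)) (rb_int_om P (hvc'.pow 2))
      refine this.trans ?_
      linarith
    have c2 : |∫ x in P.Om, (α'⁻¹ * (u' x - 1)) * z x| ≤ 2 * C1 := by
      have := rb_cross_bound (rb_int_om P (hvc'.pow 2)) (rb_int_om P (hvc.pow 2))
      have e : ∫ x in P.Om, (α'⁻¹ * (u' x - 1)) * z x = - ∫ x in P.Om,
          (α'⁻¹ * (u' x - 1)) * (α'⁻¹ * (u' x - 1) - α⁻¹ * (u x - 1)) := by
        rw [← integral_neg]; congr 1; ext x; rw [hzdef]; ring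
      rw [e, abs_neg]
      refine this.trans ?_
      linarith
    have c3 : |P.bdI (fun x => (α⁻¹ * (u x - 1)) * z x)| ≤ 2 * C1 := by
      have := rb_cross_bound (rb_int_bd P (hvc.pow 2)) (rb_int_bd P (hvc'.pow 2))
      refine this.trans ?_
      unfold PD.bdI at n3 n4
      linarith
    have c4 : |P.bdI (fun x => (α'⁻¹ * (u' x - 1)) * z x)| ≤ 2 * C1 := by
      have := rb_cross_bound (rb_int_bd P (hvc'.pow 2)) (rb_int_bd P (hvc.pow 2))
      have e : P.bdI (fun x => (α'⁻¹ * (u' x - 1)) * z x) = - P.bdI (fun x =>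
          (α'⁻¹ * (u' x - 1)) * (α'⁻¹ * (u' x - 1) - α⁻¹ * (u x - 1))) := by
        unfold PD.bdI
        rw [← integral_neg]; congr 1; ext x; rw [hzdef]; ring
      rw [e, abs_neg]
      refine this.trans ?_
      unfold PD.bdI at n3 n4
      linarith
    rw [l1, b1] at w1
    rw [l2, b1'] at w2
    set Lv := ∫ x in P.Om, (α⁻¹ * (u x - 1)) * z x
    set Lv' := ∫ x in P.Om, (α'⁻¹ * (u' x - 1)) * z x
    set Bv := P.bdI (fun x => (α⁻¹ * (u x - 1)) * z x)
    set Bv' := P.bdI (fun x => (α'⁻¹ * (u' x - 1)) * z x)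
    set Q1 := ∫ x in P.Om, ⟪gradient u x, gradient z x⟫
    set Q2 := ∫ x in P.Om, ⟪gradient u' x, gradient z x⟫
    have q1 : α⁻¹ * Q1 = lam * Lv - P.bdI z - α * Bv := by
      have : Q1 = α * (lam * Lv - P.bdI z - α * Bv) := by linarith
      rw [this, ← mul_assoc, inv_mul_cancel₀ hα.ne', one_mul]
    have q2 : α'⁻¹ * Q2 = lam' * Lv' - P.bdI z - α' * Bv' := by
      have : Q2 = α' * (lam' * Lv' - P.bdI z - α' * Bv') := by linarith
      rw [this, ← mul_assoc, inv_mul_cancel₀ hα'.ne', one_mul]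
    have main : ∫ x in P.Om, ‖gradient z x‖ ^ 2 ≤ 2 * C1 * (P.mu + 1) * (α + α') := by
      have hD2 : ∫ x in P.Om, ‖gradient z x‖ ^ 2 = lam * Lv - α * Bv - lam' * Lv' + α' * Bv' := by
        rw [hD]; linarith
      have u1 : lam * Lv ≤ (P.mu * α) * (2 * C1) := by
        calc lam * Lv ≤ lam * |Lv| := by gcongr; exact le_abs_self _
          _ ≤ (P.mu * α) * (2 * C1) := by gcongr
      have u2 : -(lam' * Lv') ≤ (P.mu * α') * (2 * C1) := by
        calc -(lam' * Lv') = lam' * (-Lv') := by ring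
          _ ≤ lam' * |Lv'| := by gcongr; exact neg_le_abs _
          _ ≤ (P.mu * α') * (2 * C1) := by gcongr
      have u3 : -(α * Bv) ≤ α * (2 * C1) := by
        calc -(α * Bv) = α * (-Bv) := by ring
          _ ≤ α * |Bv| := by gcongr; exact neg_le_abs _
          _ ≤ α * (2 * C1) := by gcongr
      have u4 : α' * Bv' ≤ α' * (2 * C1) := by
        calc α' * Bv' ≤ α' * |Bv'| := by gcongr; exact le_abs_self _
          _ ≤ α' * (2 * C1) := by gcongr
      rw [hD2]
      nlinarith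
    have main2 : ∫ x in P.Om, z x ^ 2 ≤ CP * (2 * C1 * (P.mu + 1) * (α + α')) :=
      (hPo z hz.s (rb_int_om P (hz.c.pow 2)) hz.g hz0).trans (by gcongr)
    have hGz : ∫ x in P.Om, ‖α⁻¹ • gradient u x - α'⁻¹ • gradient u' x‖ ^ 2 =
        ∫ x in P.Om, ‖gradient z x‖ ^ 2 :=
      setIntegral_congr_fun P.measurableSet_Om fun x hx => by simp only [hgz x hx]
    rw [hGz]
    have s0 : 0 < α + α' := by positivity
    have s1 : 0 ≤ 2 * C1 * (P.mu + 1) * (α + α') := by positivity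
    have s2 : 0 ≤ CP * (2 * C1 * (P.mu + 1) * (α + α')) := by positivity
    have s3 : (C1 + 4 * C1 * (P.mu + 1) * (1 + CP)) * (α + α') = C1 * (α + α') +
      2 * (2 * C1 * (P.mu + 1) * (α + α')) + 2 * (CP * (2 * C1 * (P.mu + 1) * (α + α'))) := by ring
    have s4 : 0 ≤ C1 * (α + α') := by positivity
    rw [s3]
    exact ⟨by linarith, by linarith⟩

end

end Pool.Agent.Lib_helper61.Robin
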