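import Pool.Agent.Lib_helper61.Robin.EN

/-!
# Robin project, block LI: the L² limit of the normalised ground states
-/

namespace Pool.Agent.Lib_helper61.Robin

open MeasureTheory Set Metric Filter Topology
open scoped RealInnerProductSpace ContDiff
open Pool.Agent.Lib_helper13.Robin

noncomputable section

theorem rb_L2_cauchy {Ω F : Type*} [MeasurableSpace Ω] {μ : Measure Ω} [NormedAddCommGroup F]
    [InnerProductSpace ℝ F] [CompleteSpace F] (f : ℕ → Ω → F) (hf : ∀ n, MemLp (f n) 2 μ)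
    (a : ℕ → ℝ) (ha : Tendsto a atTop (𝓝 0))
    (h : ∀ m n, ∫ x, ‖f m x - f n x‖ ^ 2 ∂μ ≤ a m + a n) :
    ∃ g : Ω → F, MemLp g 2 μ ∧
      (∀ φ : Ω → F, MemLp φ 2 μ →
        Tendsto (fun n => ∫ x, ⟪f n x, φ x⟫ ∂μ) atTop (𝓝 (∫ x, ⟪g x, φ x⟫ ∂μ))) ∧
      ∃ k : ℕ → ℕ, StrictMono k ∧ ∀ᵐ x ∂μ, Tendsto (fun n => f (k n) x) atTop (𝓝 (g x)) := by
  set T : ℕ → Lp F 2 μ := fun n => (hf n).toLp (f n) with hT
  have hTe : ∀ n, (T n : Ω → F) =ᵐ[μ] f n := fun n => (hf n).coeFn_toLp
  have hnorm : ∀ m n, ‖T m - T n‖ ^ 2 = ∫ x, ‖f m x - f n x‖ ^ 2 ∂μ := by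
    intro m n
    rw [← real_inner_self_eq_norm_sq, L2.inner_def]
    refine integral_congr_ae ?_
    filter_upwards [hTe m, hTe n, Lp.coeFn_sub (T m) (T n)] with x h1 h2 h3
    rw [h3, Pi.sub_apply, h1, h2, real_inner_self_eq_norm_sq]
  have hC : CauchySeq T := by
    rw [Metric.cauchySeq_iff]
    intro ε hε
    have h1 : ∀ᶠ n in atTop, a n < ε ^ 2 / 2 := (tendsto_order.1 ha).2 _ (by positivity)
    obtain ⟨N, hN⟩ := eventually_atTop.1 h1
    refine ⟨N, fun m hm n hn => ?_⟩
    rw [dist_eq_norm]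
    have h2 : ‖T m - T n‖ ^ 2 < ε ^ 2 := by
      rw [hnorm]
      have := hN m hm; have := hN n hn; have := h m n
      linarith
    exact lt_of_pow_lt_pow_left₀ 2 hε.le h2
  obtain ⟨L, hL⟩ := cauchySeq_tendsto_of_complete hC
  refine ⟨L, Lp.memLp L, ?_, ?_⟩
  · intro φ hφ
    have h1 : Tendsto (fun n => ⟪T n, hφ.toLp φ⟫) atTop (𝓝 ⟪L, hφ.toLp φ⟫) :=
      hL.inner tendsto_const_nhds
    have h2 : ⟪L, hφ.toLp φ⟫ = ∫ x, ⟪(L : Ω → F) x, φ x⟫ ∂μ := by
      rw [L2.inner_def]
      refine integral_congr_ae ?_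
      filter_upwards [hφ.coeFn_toLp] with x h1
      rw [h1]
    rw [h2] at h1
    refine h1.congr fun n => ?_
    rw [L2.inner_def]
    refine integral_congr_ae ?_
    filter_upwards [hφ.coeFn_toLp, hTe n] with x h1 h2
    rw [h1, h2]
  · obtain ⟨k, hk, hk2⟩ := (tendstoInMeasure_of_tendsto_Lp hL).exists_seq_tendsto_ae
    refine ⟨k, hk, ?_⟩
    filter_upwards [hk2, ae_all_iff.2 hTe] with x h1 h2
    refine h1.congr fun n => ?_
    rw [h2]

theorem rb_young {Ω : Type*} [MeasurableSpace Ω] {μ : Measure Ω} {f g : Ω → ℝ}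
    (hf : Integrable (fun x => f x ^ 2) μ) (hg : Integrable (fun x => g x ^ 2) μ) {t : ℝ}
    (ht : 0 < t) :
    |∫ x, f x * g x ∂μ| ≤ t⁻¹ / 2 * (∫ x, f x ^ 2 ∂μ) + t / 2 * ∫ x, g x ^ 2 ∂μ := by
  have h := norm_integral_le_of_norm_le (f := fun x => f x * g x)
    ((hf.const_mul (t⁻¹ / 2)).add (hg.const_mul (t / 2))) (Eventually.of_forall fun x => by
      simp only [Pi.add_apply]
      rw [Real.norm_eq_abs, abs_mul]
      have h1 : t⁻¹ / 2 * f x ^ 2 + t / 2 * g x ^ 2 - |f x| * |g x| =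
          t⁻¹ / 2 * (|f x| - t * |g x|) ^ 2 := by
        rw [← sq_abs (f x), ← sq_abs (g x)]; field_simp; ring
      have h2 : 0 ≤ t⁻¹ / 2 * (|f x| - t * |g x|) ^ 2 := by positivity
      linarith)
  rw [Real.norm_eq_abs] at h
  simp only [Pi.add_apply] at h
  rwa [integral_add (hf.const_mul _) (hg.const_mul _), integral_const_mul,
    integral_const_mul] at h

variable {d m : ℕ} (P : PD d m)

/-- integration by parts against a test function with compact support in the domain -/
theorem rb_ibp {v φ : E d → ℝ} (hv : ContDiffOn ℝ 1 v P.Om) (hφ : ContDiff ℝ ∞ φ)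
    (hc : HasCompactSupport φ) (hs : tsupport φ ⊆ P.Om) (e : E d) :
    ∫ x in P.Om, v x * pd e φ x = - ∫ x in P.Om, ⟪gradient v x, e⟫ * φ x := by
  have hK : IsCompact (tsupport φ) := hc
  have hvc : ContinuousOn v (tsupport φ) := hv.continuousOn.mono hs
  have hdv : ContinuousOn (fun x => fderiv ℝ v x e) (tsupport φ) := by
    have h1 : ContinuousOn (fun x => fderiv ℝ v x) P.Om :=
      hv.continuousOn_fderiv_of_isOpen P.isOpen_Om (by norm_num)
    exact (h1.clm_apply continuousOn_const).mono hs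
  have hφ1 : Continuous (fun x => fderiv ℝ φ x e) :=
    (hφ.continuous_fderiv (by simp)).clm_apply continuous_const
  have hz : ∀ x, x ∉ tsupport φ → φ x = 0 := fun x hx => image_eq_zero_of_notMem_tsupport hx
  have hz' : ∀ x, x ∉ tsupport φ → fderiv ℝ φ x e = 0 := by
    intro x hx
    have : fderiv ℝ φ x = 0 := by
      by_contra hne
      exact hx (support_fderiv_subset ℝ (Function.mem_support.2 hne))
    rw [this]; rfl
  have mk : ∀ F : E d → ℝ, ContinuousOn F (tsupport φ) → (∀ x, x ∉ tsupport φ → F x = 0) →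
      Integrable F := by
    intro F hF hF0
    rw [← integrableOn_iff_integrable_of_support_subset (s := tsupport φ)]
    · exact hF.integrableOn_compact hK
    · intro x hx
      by_contra hn
      exact hx (hF0 x hn)
  have key := integral_mul_fderiv_eq_neg_fderiv_mul_of_integrable (μ := volume) (f := v) (g := φ)
    (v := e) (mk _ (hdv.mul hφ.continuous.continuousOn) fun x hx => by simp [hz x hx])
    (mk _ (hvc.mul hφ1.continuousOn) fun x hx => by
      change v x * fderiv ℝ φ x e = 0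
      rw [hz' x hx, mul_zero])
    (mk _ (hvc.mul hφ.continuous.continuousOn) fun x hx => by simp [hz x hx])
    (fun x hx => (hv.differentiableOn (by norm_num)).differentiableAt
      (P.isOpen_Om.mem_nhds (hs hx)))
    (fun x _ => (hφ.differentiable (by simp)) x)
  rw [setIntegral_eq_integral_of_forall_compl_eq_zero, setIntegral_eq_integral_of_forall_compl_eq_zero]
  · simp only [pd]
    rw [key]
    congr 1
    refine integral_congr_ae (Eventually.of_forall fun x => ?_)
    simp only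
    rw [inner_gradient_left]
  · intro x hx
    rw [hz x fun h => hx (hs h), mul_zero]
  · intro x hx
    unfold pd
    rw [hz' x fun h => hx (hs h), mul_zero]

/-- **LI.** `L²` limits -/
theorem limit_pair (α lam : ℕ → ℝ) (u : ℕ → E d → ℝ) (hα : ∀ n, 0 < α n)
    (hα0 : Tendsto α atTop (𝓝 0)) (hu : ∀ n, RGS P.Om (α n) (lam n) (u n))
    (hn : ∀ n, ∫ x in P.Om, u n x = P.vol) :
    ∃ (V : E d → ℝ) (D : E d → E d) (k : ℕ → ℕ), StrictMono k ∧
      MemLp V 2 (volume.restrict P.Om) ∧ MemLp D 2 (volume.restrict P.Om) ∧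
      (∀ᵐ x ∂(volume.restrict P.Om),
        Tendsto (fun n => (u (k n) x - 1) / α (k n)) atTop (𝓝 (V x))) ∧
      (∀ φ : E d → ℝ, ContinuousOn φ P.cl → ContDiffOn ℝ 1 φ P.Om →
        IntegrableOn (fun x => ‖gradient φ x‖ ^ 2) P.Om →
        ∫ x in P.Om, ⟪D x, gradient φ x⟫ = P.mu * (∫ x in P.Om, φ x) - P.bdI φ) ∧
      (∀ φ : E d → ℝ, ContDiff ℝ ∞ φ → HasCompactSupport φ → tsupport φ ⊆ P.Om → ∀ e : E d,
        ∫ x in P.Om, V x * pd e φ x = - ∫ x in P.Om, ⟪D x, e⟫ * φ x) := by
  obtain ⟨a1, ha1, C, hC, hE1, hE2⟩ := energy P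
  obtain ⟨N, hN⟩ := eventually_atTop.1 ((tendsto_order.1 hα0).2 a1 ha1)
  -- the shifted sequences
  have hA0 : Tendsto (fun n => α (n + N)) atTop (𝓝 0) := hα0.comp (tendsto_add_atTop_nat N)
  have hA1 : ∀ n, α (n + N) < a1 := fun n => hN _ (Nat.le_add_left _ _)
  have hH : ∀ n, HH P (u n) := fun n => rb_RGS_HH P (hu n)
  have hvc : ∀ n, ContinuousOn (fun x => (α n)⁻¹ * (u n x - 1)) P.cl := fun n =>
    continuousOn_const.mul ((hH n).c.sub continuousOn_const)
  have hvL : ∀ n, MemLp (fun x => (α n)⁻¹ * (u n x - 1)) 2 (volume.restrict P.Om) := by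
    intro n
    rw [memLp_two_iff_integrable_sq_norm (((hvc n).mono P.Om_sub_cl).aestronglyMeasurable
      P.measurableSet_Om)]
    exact rb_int_om P ((hvc n).norm.pow 2)
  have hDL : ∀ n, MemLp (fun x => (α n)⁻¹ • gradient (u n) x) 2 (volume.restrict P.Om) := by
    intro n
    have hm : AEStronglyMeasurable (fun x => (α n)⁻¹ • gradient (u n) x)
      (volume.restrict P.Om) := (hH n).gm.const_smul (α n)⁻¹
    rw [memLp_two_iff_integrable_sq_norm hm]
    have : (fun x => ‖(α n)⁻¹ • gradient (u n) x‖ ^ 2) =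
        fun x => ((α n)⁻¹) ^ 2 * ‖gradient (u n) x‖ ^ 2 := by
      ext x
      rw [norm_smul, mul_pow, Real.norm_eq_abs, sq_abs]
    rw [this]
    exact (hH n).g.const_mul _
  have hCA : Tendsto (fun n => C * α (n + N)) atTop (𝓝 0) := by
    simpa using hA0.const_mul C
  obtain ⟨V, hV, hVw, k, hk, hkV⟩ := rb_L2_cauchy
    (fun n x => (α (n + N))⁻¹ * (u (n + N) x - 1)) (fun n => hvL _) (fun n => C * α (n + N)) hCA
    (fun p q => by
      have := (hE2 _ _ _ _ _ _ (hα (p + N)) (hA1 p) (hα (q + N)) (hA1 q) (hu _) (hu _)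
        (hn _) (hn _)).2
      simp only [Real.norm_eq_abs, sq_abs]
      linarith)
  obtain ⟨D, hD, hDw, -⟩ := rb_L2_cauchy
    (fun n x => (α (n + N))⁻¹ • gradient (u (n + N)) x) (fun n => hDL _)
    (fun n => C * α (n + N)) hCA
    (fun p q => by
      have := (hE2 _ _ _ _ _ _ (hα (p + N)) (hA1 p) (hα (q + N)) (hA1 q) (hu _) (hu _)
        (hn _) (hn _)).1
      linarith)
  refine ⟨V, D, fun n => k n + N, fun a b hab => Nat.add_lt_add_right (hk hab) N,
    hV, hD, ?_, ?_, ?_⟩
  · filter_upwards [hkV] with x hx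
    refine hx.congr fun n => ?_
    rw [div_eq_inv_mul]
  · -- the weak identity
    intro φ hφc hφs hφg
    have hφ : HH P φ := ⟨hφc, hφs, hφg⟩
    have hgL : MemLp (fun x => gradient φ x) 2 (volume.restrict P.Om) := by
      rw [memLp_two_iff_integrable_sq_norm hφ.gm]; exact hφg
    have h1 := hDw _ hgL
    have hid : ∀ n, ∫ x in P.Om, ⟪(α (n + N))⁻¹ • gradient (u (n + N)) x, gradient φ x⟫ =
        (lam (n + N) / α (n + N)) * ((∫ x in P.Om, φ x) +
          ∫ x in P.Om, (u (n + N) x - 1) * φ x) -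
        (P.bdI φ + P.bdI (fun x => (u (n + N) x - 1) * φ x)) := by
      intro n
      have hw := rb_weak P (hu (n + N)) hφ
      have huc : ContinuousOn (fun x => (u (n + N) x - 1) * φ x) P.cl :=
        ((hH _).c.sub continuousOn_const).mul hφc
      have e1 := rb_om_lin' P (k := fun x => u (n + N) x * φ x) (rb_int_om P hφc)
        (rb_int_om P huc) 1 1 (fun x => by ring)
      have e2 := rb_bdI_lin' P (k := fun x => u (n + N) x * φ x) hφc huc 1 1 (fun x => by ring)
      rw [one_mul, one_mul] at e1 e2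
      rw [e1, e2] at hw
      have e3 : ∫ x in P.Om, ⟪(α (n + N))⁻¹ • gradient (u (n + N)) x, gradient φ x⟫ =
          (α (n + N))⁻¹ * ∫ x in P.Om, ⟪gradient (u (n + N)) x, gradient φ x⟫ := by
        rw [← integral_const_mul]
        congr 1; ext x; rw [real_inner_smul_left]
      rw [e3]
      have h0 := (hα (n + N)).ne'
      field_simp
      linarith
    have hlam : Tendsto (fun n => lam (n + N) / α (n + N)) atTop (𝓝 P.mu) := by
      rw [tendsto_iff_dist_tendsto_zero]
      refine squeeze_zero (fun n => dist_nonneg) (fun n => ?_) hCA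
      have h3 := (hE1 _ _ _ (hα (n + N)) (hA1 n) (hu _) (hn _)).2.2.2
      have h0 := hα (n + N)
      rw [Real.dist_eq]
      have h4 : lam (n + N) / α (n + N) - P.mu = (lam (n + N) - P.mu * α (n + N)) / α (n + N) := by
        field_simp
      rw [h4, abs_div, abs_of_pos h0, div_le_iff₀ h0]
      calc _ ≤ C * α (n + N) ^ 2 := h3
        _ = C * α (n + N) * α (n + N) := by ring
    have hφ2 : ContinuousOn (fun x => φ x ^ 2) P.cl := hφc.pow 2
    have hI : Tendsto (fun n => ∫ x in P.Om, (u (n + N) x - 1) * φ x) atTop (𝓝 0) := by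
      rw [tendsto_zero_iff_abs_tendsto_zero]
      have hb : Tendsto (fun n => (C / 2 + 1 / 2 * ∫ x in P.Om, φ x ^ 2) * α (n + N)) atTop
          (𝓝 0) := by simpa using hA0.const_mul (C / 2 + 1 / 2 * ∫ x in P.Om, φ x ^ 2)
      refine squeeze_zero (fun n => abs_nonneg _) (fun n => ?_) hb
      have h0 := hα (n + N)
      have h3 := (hE1 _ _ _ h0 (hA1 n) (hu _) (hn _)).2.1
      have hu2 : ContinuousOn (fun x => (u (n + N) x - 1) ^ 2) P.cl :=
        ((hH _).c.sub continuousOn_const).pow 2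
      have h4 := rb_young (rb_int_om P hu2) (rb_int_om P hφ2) h0
      have h5 : (α (n + N))⁻¹ / 2 * (∫ x in P.Om, (u (n + N) x - 1) ^ 2) ≤
          (α (n + N))⁻¹ / 2 * (C * α (n + N) ^ 2) := by gcongr
      have h6 : (α (n + N))⁻¹ / 2 * (C * α (n + N) ^ 2) = C / 2 * α (n + N) := by
        field_simp
      change |∫ x in P.Om, (u (n + N) x - 1) * φ x| ≤ _
      linarith
    have hJ : Tendsto (fun n => P.bdI (fun x => (u (n + N) x - 1) * φ x)) atTop (𝓝 0) := by
      rw [tendsto_zero_iff_abs_tendsto_zero]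
      have hb : Tendsto (fun n => (C / 2 + 1 / 2 * P.bdI (fun x => φ x ^ 2)) * α (n + N)) atTop
          (𝓝 0) := by simpa using hA0.const_mul (C / 2 + 1 / 2 * P.bdI (fun x => φ x ^ 2))
      refine squeeze_zero (fun n => abs_nonneg _) (fun n => ?_) hb
      have h0 := hα (n + N)
      have h3 := (hE1 _ _ _ h0 (hA1 n) (hu _) (hn _)).2.2.1
      have hu2 : ContinuousOn (fun x => (u (n + N) x - 1) ^ 2) P.cl :=
        ((hH _).c.sub continuousOn_const).pow 2
      have h4 := rb_young (rb_int_bd P hu2) (rb_int_bd P hφ2) h0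
      have h5 : (α (n + N))⁻¹ / 2 * P.bdI (fun x => (u (n + N) x - 1) ^ 2) ≤
          (α (n + N))⁻¹ / 2 * (C * α (n + N) ^ 2) := by gcongr
      have h6 : (α (n + N))⁻¹ / 2 * (C * α (n + N) ^ 2) = C / 2 * α (n + N) := by
        field_simp
      change |P.bdI (fun x => (u (n + N) x - 1) * φ x)| ≤ _
      unfold PD.bdI at h5 ⊢
      linarith
    have h2 : Tendsto (fun n => (lam (n + N) / α (n + N)) * ((∫ x in P.Om, φ x) +
          ∫ x in P.Om, (u (n + N) x - 1) * φ x) -
        (P.bdI φ + P.bdI (fun x => (u (n + N) x - 1) * φ x))) atTop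
        (𝓝 (P.mu * ((∫ x in P.Om, φ x) + 0) - (P.bdI φ + 0))) :=
      (hlam.mul (tendsto_const_nhds.add hI)).sub (tendsto_const_nhds.add hJ)
    rw [add_zero, add_zero] at h2
    exact tendsto_nhds_unique h1 (h2.congr fun n => (hid n).symm)
  · -- the weak gradient
    intro φ hφ hφc hφs e
    have c1 : Continuous (fun x => pd e φ x) :=
      (hφ.continuous_fderiv (by simp)).clm_apply continuous_const
    have g1 : MemLp (fun x => pd e φ x) 2 (volume.restrict P.Om) := by
      rw [memLp_two_iff_integrable_sq_norm c1.aestronglyMeasurable]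
      exact rb_int_om P (c1.norm.pow 2).continuousOn
    have c2 : Continuous (fun x => φ x • e) := hφ.continuous.smul continuous_const
    have g2 : MemLp (fun x => φ x • e) 2 (volume.restrict P.Om) := by
      rw [memLp_two_iff_integrable_sq_norm c2.aestronglyMeasurable]
      exact rb_int_om P (c2.norm.pow 2).continuousOn
    have h1 := hVw _ g1
    have h2 := hDw _ g2
    have e1 : ∫ x in P.Om, V x * pd e φ x = ∫ x in P.Om, ⟪V x, pd e φ x⟫ := by
      congr 1; ext x; rw [real_inner_eq_re_inner]; simp [mul_comm]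
    have e2 : ∫ x in P.Om, ⟪D x, e⟫ * φ x = ∫ x in P.Om, ⟪D x, φ x • e⟫ := by
      congr 1; ext x; rw [real_inner_smul_right, mul_comm]
    rw [e1, e2]
    refine tendsto_nhds_unique h1 ((h2.neg).congr fun n => ?_)
    have h3 := rb_ibp P (v := fun x => (α (n + N))⁻¹ * (u (n + N) x - 1))
      (contDiffOn_const.mul ((hH _).s.sub contDiffOn_const)) hφ hφc hφs e
    have e3 : ∫ x in P.Om, ⟪(α (n + N))⁻¹ * (u (n + N) x - 1), pd e φ x⟫ =
        ∫ x in P.Om, (α (n + N))⁻¹ * (u (n + N) x - 1) * pd e φ x := by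
      congr 1; ext x; rw [real_inner_eq_re_inner]; simp [mul_comm]
    rw [e3, h3]
    congr 1
    refine setIntegral_congr_fun P.measurableSet_Om fun x hx => ?_
    have h4 : gradient (fun x => (α (n + N))⁻¹ * (u (n + N) x - 1)) x =
        (α (n + N))⁻¹ • gradient (u (n + N)) x := by
      have := rb_grad_lin ((hH (n + N)).diff hx) ((hH (n + N)).diff hx) (α (n + N))⁻¹ 0
        (-(α (n + N))⁻¹)
      rw [zero_smul, add_zero] at this
      rw [← this]
      congr 1; ext y; ring
    change ⟪(α (n + N))⁻¹ • gradient (u (n + N)) x, φ x • e⟫ =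
      ⟪gradient (fun x => (α (n + N))⁻¹ * (u (n + N) x - 1)) x, e⟫ * φ x
    rw [h4, real_inner_smul_right, mul_comm]

end

end Pool.Agent.Lib_helper61.Robin
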