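import Pool.Agent.Lib_helper13.Robin.W.NV
import Pool.Agent.Lib_helper13.Robin.W.XE
import Pool.Agent.Lib_helper13.Robin.W.XQ
import Pool.Agent.Lib_helper13.Robin.W.XS
import Pool.Agent.Lib_helper13.Robin.W.NL
import Pool.Agent.Lib_helper13.Robin.W.XD
import Pool.Agent.Lib_helper13.Robin.W.RE
import Pool.Agent.Lib_helper13.Robin.W.IE
import Pool.Agent.Lib_helper13.Robin.W.PL

/-!
# Robin project, block XH, part 1: geometry at an edge, Taylor expansion along the edge
-/

namespace Pool.Agent.Lib_helper61.Robin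

open MeasureTheory Set Metric Filter Topology
open scoped RealInnerProductSpace ContDiff
open Pool.Agent.Lib_helper13.Robin

noncomputable section

variable {d m : ℕ} (P : PD d m)

theorem xh_norm_yy {e1 e2 : E d} (n1 : ‖e1‖ = 1) (n2 : ‖e2‖ = 1) (orth : ⟪e1, e2⟫ = 0)
    {ρ θ : ℝ} (hρ : 0 ≤ ρ) : ‖yy e1 e2 ρ θ‖ = ρ := by
  have h1 : ‖Real.cos θ • e1 + Real.sin θ • e2‖ ^ 2 = 1 := by
    rw [norm_add_sq_real, norm_smul, norm_smul, real_inner_smul_left, real_inner_smul_right, orth,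
      n1, n2, Real.norm_eq_abs, Real.norm_eq_abs]
    rw [mul_one, mul_one, sq_abs, sq_abs, mul_zero, mul_zero, mul_zero, add_zero]
    exact Real.cos_sq_add_sin_sq θ
  have h2 : ‖Real.cos θ • e1 + Real.sin θ • e2‖ = 1 := by
    have := norm_nonneg (Real.cos θ • e1 + Real.sin θ • e2)
    nlinarith
  unfold yy
  rw [norm_smul, h2, mul_one, Real.norm_eq_abs, abs_of_nonneg hρ]

variable {P}

theorem xh_yy_mem {q : E d} {i j : Fin m} {e1 e2 : E d} {om : ℝ} (hF : Frame P q i j e1 e2 om)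
    (ρ θ : ℝ) : yy e1 e2 ρ θ ∈ P.N q := by
  rw [hF.N_eq]
  unfold yy
  refine Submodule.smul_mem _ _ (Submodule.add_mem _ (Submodule.smul_mem _ _ ?_)
    (Submodule.smul_mem _ _ ?_))
  · exact Submodule.subset_span (by simp)
  · exact Submodule.subset_span (by simp)

theorem xh_inner_i {q : E d} {i j : Fin m} {e1 e2 : E d} {om : ℝ} (hF : Frame P q i j e1 e2 om)
    (ρ θ : ℝ) : ⟪P.ν i, yy e1 e2 ρ θ⟫ = -(ρ * Real.sin θ) := by
  rw [hF.νi]
  unfold yy
  rw [inner_neg_left, real_inner_smul_right, inner_add_right, real_inner_smul_right,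
    real_inner_smul_right, real_inner_comm, hF.orth, real_inner_self_eq_norm_sq, hF.n2]
  ring

theorem xh_inner_j {q : E d} {i j : Fin m} {e1 e2 : E d} {om : ℝ} (hF : Frame P q i j e1 e2 om)
    (ρ θ : ℝ) : ⟪P.ν j, yy e1 e2 ρ θ⟫ = ρ * Real.sin (θ - om) := by
  rw [hF.νj]
  unfold yy
  rw [real_inner_smul_right, inner_add_left, inner_add_right, inner_add_right,
    real_inner_smul_left, real_inner_smul_left, real_inner_smul_left, real_inner_smul_left,
    real_inner_smul_right, real_inner_smul_right, real_inner_smul_right, real_inner_smul_right,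
    real_inner_comm e1 e2, hF.orth, real_inner_self_eq_norm_sq, real_inner_self_eq_norm_sq,
    hF.n1, hF.n2, Real.sin_sub]
  ring

theorem xh_norm_add {q : E d} {s y : E d} (hs : s ∈ (P.N q)ᗮ) (hy : y ∈ P.N q) :
    ‖s + y‖ ^ 2 = ‖s‖ ^ 2 + ‖y‖ ^ 2 := by
  rw [norm_add_sq_real, Submodule.inner_left_of_mem_orthogonal hy hs]
  ring

theorem xh_mem {q : E d} {i j : Fin m} {e1 e2 : E d} {om R : ℝ} (hF : Frame P q i j e1 e2 om)
    (hC : P.Con q R) {s : E d} (hs : s ∈ (P.N q)ᗮ) {ρ θ : ℝ} (hρ : 0 < ρ)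
    (hθ : θ ∈ Ioo 0 om) (hn : ‖s‖ ^ 2 + ρ ^ 2 < R ^ 2) :
    q + s + yy e1 e2 ρ θ ∈ P.Om ∩ ball q R := by
  have hball : q + s + yy e1 e2 ρ θ ∈ ball q R := by
    rw [mem_ball, dist_eq_norm, show q + s + yy e1 e2 ρ θ - q = s + yy e1 e2 ρ θ by abel]
    have h1 := xh_norm_add hs (xh_yy_mem hF ρ θ)
    rw [xh_norm_yy hF.n1 hF.n2 hF.orth hρ.le] at h1
    exact lt_of_pow_lt_pow_left₀ 2 hC.1.le (h1 ▸ hn)
  refine ⟨?_, hball⟩
  rw [hC.mem_Om_iff hball]
  intro k hk
  rw [show q + s + yy e1 e2 ρ θ - q = s + yy e1 e2 ρ θ by abel, inner_add_right,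
    P.mem_N_orth.1 hs k hk, zero_add]
  rw [hF.hA] at hk
  rcases hk with rfl | hk
  · rw [xh_inner_i hF]
    have := Real.sin_pos_of_pos_of_lt_pi hθ.1 (hθ.2.trans hF.omπ)
    have := mul_pos hρ this
    linarith
  · rw [mem_singleton_iff] at hk
    rw [hk, xh_inner_j hF]
    have h1 : Real.sin (θ - om) < 0 := by
      apply Real.sin_neg_of_neg_of_neg_pi_lt
      · linarith [hθ.2]
      · linarith [hθ.1, hF.omπ]
    exact mul_neg_of_pos_of_neg hρ h1

theorem xh_polar {q : E d} {i j : Fin m} {e1 e2 : E d} {om : ℝ} (hF : Frame P q i j e1 e2 om)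
    {x : E d} (hx : x ∈ P.Om) : ∃ ρ > 0, ∃ θ ∈ Ioo 0 om,
      (P.N q).starProjection (x - q) = yy e1 e2 ρ θ := by
  set y := (P.N q).starProjection (x - q) with hy
  have hyN : y ∈ P.N q := Submodule.starProjection_apply_mem _ _
  have hinn : ∀ k ∈ P.A q, ⟪P.ν k, y⟫ = ⟪P.ν k, x - q⟫ := by
    intro k hk
    have h1 : x - q - y ∈ (P.N q)ᗮ := Submodule.sub_starProjection_mem_orthogonal _
    have h2 := P.mem_N_orth.1 h1 k hk
    rw [inner_sub_right] at h2
    linarith
  have hneg : ∀ k ∈ P.A q, ⟪P.ν k, y⟫ < 0 := by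
    intro k hk
    rw [hinn k hk, inner_sub_right, show ⟪P.ν k, q⟫ = P.b k from hk]
    linarith [hx k]
  have hi : i ∈ P.A q := by rw [hF.hA]; simp
  have hj : j ∈ P.A q := by rw [hF.hA]; simp
  -- coordinates
  rw [hF.N_eq, Submodule.mem_span_pair] at hyN
  obtain ⟨a, b, hab⟩ := hyN
  have hb : 0 < b := by
    have h1 := hneg i hi
    rw [hF.νi, ← hab, inner_neg_left, inner_add_right, real_inner_smul_right,
      real_inner_smul_right, real_inner_comm, hF.orth, real_inner_self_eq_norm_sq, hF.n2] at h1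
    linarith
  have hρ : 0 < Real.sqrt (a ^ 2 + b ^ 2) := Real.sqrt_pos.2 (by positivity)
  set ρ := Real.sqrt (a ^ 2 + b ^ 2) with hρd
  have hρ2 : ρ ^ 2 = a ^ 2 + b ^ 2 := Real.sq_sqrt (by positivity)
  have haρ : |a| ≤ ρ := by
    apply Real.abs_le_sqrt; nlinarith
  have h1 : -1 ≤ a / ρ := by rw [le_div_iff₀ hρ]; linarith [neg_abs_le a]
  have h2 : a / ρ ≤ 1 := by rw [div_le_one hρ]; exact (le_abs_self a).trans haρ
  have hcos : Real.cos (Real.arccos (a / ρ)) = a / ρ := Real.cos_arccos h1 h2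
  have hsin : Real.sin (Real.arccos (a / ρ)) = b / ρ := by
    rw [Real.sin_arccos]
    have : 1 - (a / ρ) ^ 2 = (b / ρ) ^ 2 := by
      field_simp; linarith
    rw [this, Real.sqrt_sq (by positivity)]
  set θ := Real.arccos (a / ρ) with hθd
  have hyy : y = yy e1 e2 ρ θ := by
    unfold yy
    rw [← hab, hcos, hsin, smul_add, smul_smul, smul_smul]
    congr 2 <;> field_simp
  have hsp : 0 < Real.sin θ := by rw [hsin]; positivity
  have hθ0 : 0 < θ := by
    rcases (Real.arccos_nonneg (a / ρ)).eq_or_lt with h | h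
    · rw [← hθd] at h; rw [← h, Real.sin_zero] at hsp; exact absurd hsp (lt_irrefl _)
    · exact h
  have hθπ : θ ≤ Real.pi := Real.arccos_le_pi _
  refine ⟨ρ, hρ, θ, ⟨hθ0, ?_⟩, hyy⟩
  by_contra hcon
  push Not at hcon
  have h3 : 0 ≤ Real.sin (θ - om) :=
    Real.sin_nonneg_of_nonneg_of_le_pi (by linarith) (by linarith [hF.om0])
  have h4 := hneg j hj
  rw [hyy, xh_inner_j hF] at h4
  have := mul_nonneg hρ.le h3
  linarith

/-- Lipschitz estimate along a family of directions -/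
theorem xh_lip {κ : Type} [Fintype κ] {S : Set (E d)} (hS : IsOpen S) (hconv : Convex ℝ S)
    (f : κ → E d) {g : E d → ℝ} (hg : DifferentiableOn ℝ g S) {B : ℝ}
    (hB : ∀ k, ∀ x ∈ S, |pd (f k) g x| ≤ B) {x : E d} {c : κ → ℝ} {τ : ℝ} (hc : ∀ k, |c k| ≤ τ)
    (hx : x ∈ S) (hx' : x + ∑ k, c k • f k ∈ S) :
    |g (x + ∑ k, c k • f k) - g x| ≤ Fintype.card κ * B * τ := by
  set t := ∑ k, c k • f k with ht
  have hseg : ∀ s ∈ Icc (0 : ℝ) 1, x + s • t ∈ S := by
    intro s hs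
    have := hconv hx hx' (by linarith [hs.2] : (0 : ℝ) ≤ 1 - s) hs.1 (by ring)
    convert this using 1
    rw [smul_add, sub_smul, one_smul]; abel
  have hd : ∀ s ∈ Icc (0 : ℝ) 1, HasDerivWithinAt (fun s => g (x + s • t))
      (fderiv ℝ g (x + s • t) t) (Icc 0 1) s := by
    intro s hs
    have h1 : DifferentiableAt ℝ g (x + s • t) :=
      (hg _ (hseg s hs)).differentiableAt (hS.mem_nhds (hseg s hs))
    have h2 : HasDerivAt (fun s : ℝ => x + s • t) t s := by
      simpa using ((hasDerivAt_id s).smul_const t).const_add x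
    exact (h1.hasFDerivAt.comp_hasDerivAt s h2).hasDerivWithinAt
  have hbd : ∀ s ∈ Ico (0 : ℝ) 1, ‖fderiv ℝ g (x + s • t) t‖ ≤ Fintype.card κ * B * τ := by
    intro s hs
    have hs' : s ∈ Icc (0 : ℝ) 1 := ⟨hs.1, hs.2.le⟩
    have h0 : fderiv ℝ g (x + s • t) t = ∑ k, c k * pd (f k) g (x + s • t) := by
      conv_lhs => rw [ht]
      rw [map_sum]
      refine Finset.sum_congr rfl fun k _ => ?_
      rw [map_smul, smul_eq_mul]; rfl
    rw [h0, Real.norm_eq_abs]
    calc |∑ k, c k * pd (f k) g (x + s • t)| ≤ ∑ k, |c k * pd (f k) g (x + s • t)| :=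
          Finset.abs_sum_le_sum_abs _ _
      _ ≤ ∑ _k : κ, B * τ := by
          refine Finset.sum_le_sum fun k _ => ?_
          rw [abs_mul, mul_comm]
          exact mul_le_mul (hB k _ (hseg s hs')) (hc k) (abs_nonneg _)
            ((abs_nonneg _).trans (hB k _ (hseg s hs')))
      _ = Fintype.card κ * B * τ := by
          rw [Finset.sum_const, Finset.card_univ, nsmul_eq_mul]; ring
  have := norm_image_sub_le_of_norm_deriv_le_segment_01' hd hbd
  simpa [Real.norm_eq_abs] using this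

/-- Taylor estimate along a family of directions -/
theorem xh_taylor {κ : Type} [Fintype κ] {S : Set (E d)} (hS : IsOpen S) (hconv : Convex ℝ S)
    (f : κ → E d) {g : E d → ℝ} (hg : DifferentiableOn ℝ g S)
    (hg2 : ∀ k, DifferentiableOn ℝ (pd (f k) g) S) {B : ℝ}
    (hB : ∀ k l, ∀ x ∈ S, |pd (f l) (pd (f k) g) x| ≤ B) {x : E d} {c : κ → ℝ} {τ : ℝ}
    (hτ : 0 ≤ τ) (hB0 : 0 ≤ B) (hc : ∀ k, |c k| ≤ τ)
    (hx : x ∈ S) (hx' : x + ∑ k, c k • f k ∈ S) :
    |g (x + ∑ k, c k • f k) - g x - ∑ k, c k * pd (f k) g x| ≤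
      (Fintype.card κ : ℝ) ^ 2 * B * τ ^ 2 := by
  set t := ∑ k, c k • f k with ht
  have hseg : ∀ s ∈ Icc (0 : ℝ) 1, x + s • t ∈ S := by
    intro s hs
    have := hconv hx hx' (by linarith [hs.2] : (0 : ℝ) ≤ 1 - s) hs.1 (by ring)
    convert this using 1
    rw [smul_add, sub_smul, one_smul]; abel
  set D := ∑ k, c k * pd (f k) g x with hD
  have hd : ∀ s ∈ Icc (0 : ℝ) 1, HasDerivWithinAt (fun s => g (x + s • t) - s * D)
      (fderiv ℝ g (x + s • t) t - D) (Icc 0 1) s := by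
    intro s hs
    have h1 : DifferentiableAt ℝ g (x + s • t) :=
      (hg _ (hseg s hs)).differentiableAt (hS.mem_nhds (hseg s hs))
    have h2 : HasDerivAt (fun s : ℝ => x + s • t) t s := by
      simpa using ((hasDerivAt_id s).smul_const t).const_add x
    have h3 : HasDerivAt (fun s : ℝ => s * D) D s := by
      simpa using (hasDerivAt_id s).mul_const D
    exact ((h1.hasFDerivAt.comp_hasDerivAt s h2).sub h3).hasDerivWithinAt
  have hbd : ∀ s ∈ Ico (0 : ℝ) 1, ‖fderiv ℝ g (x + s • t) t - D‖ ≤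
      (Fintype.card κ : ℝ) ^ 2 * B * τ ^ 2 := by
    intro s hs
    have hs' : s ∈ Icc (0 : ℝ) 1 := ⟨hs.1, hs.2.le⟩
    have h0 : fderiv ℝ g (x + s • t) t = ∑ k, c k * pd (f k) g (x + s • t) := by
      conv_lhs => rw [ht]
      rw [map_sum]
      refine Finset.sum_congr rfl fun k _ => ?_
      rw [map_smul, smul_eq_mul]; rfl
    have hst : s • t = ∑ k, (s * c k) • f k := by
      rw [ht, Finset.smul_sum]
      refine Finset.sum_congr rfl fun k _ => ?_
      rw [smul_smul]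
    have hlip : ∀ k, |pd (f k) g (x + s • t) - pd (f k) g x| ≤ Fintype.card κ * B * τ := by
      intro k
      have hmem := hseg s hs'
      rw [hst] at hmem ⊢
      refine xh_lip hS hconv f (hg2 k) (hB k) (fun l => ?_) hx hmem
      rw [abs_mul, abs_of_nonneg hs.1]
      calc s * |c l| ≤ 1 * τ := mul_le_mul hs.2.le (hc l) (abs_nonneg _) zero_le_one
        _ = τ := one_mul _
    rw [h0, hD, ← Finset.sum_sub_distrib, Real.norm_eq_abs]
    calc |∑ k, (c k * pd (f k) g (x + s • t) - c k * pd (f k) g x)|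
        ≤ ∑ k, |c k * pd (f k) g (x + s • t) - c k * pd (f k) g x| :=
          Finset.abs_sum_le_sum_abs _ _
      _ ≤ ∑ _k : κ, τ * (Fintype.card κ * B * τ) := by
          refine Finset.sum_le_sum fun k _ => ?_
          rw [← mul_sub, abs_mul]
          exact mul_le_mul (hc k) (hlip k) (abs_nonneg _) hτ
      _ = (Fintype.card κ : ℝ) ^ 2 * B * τ ^ 2 := by
          rw [Finset.sum_const, Finset.card_univ, nsmul_eq_mul]; ring
  have := norm_image_sub_le_of_norm_deriv_le_segment_01' hd hbd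
  simp only [Real.norm_eq_abs, one_smul, zero_smul, add_zero, one_mul, zero_mul, sub_zero] at this
  calc |g (x + t) - g x - D| = |g (x + t) - D - g x| := by congr 1; ring
    _ ≤ _ := this

end

end Pool.Agent.Lib_helper61.Robin
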