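import Pool.Agent.Lib_helper13.Robin.W.NV
import Pool.Agent.Lib_helper13.Robin.W.XE
import Pool.Agent.Lib_helper13.Robin.W.XQ
import Pool.Agent.Lib_helper13.Robin.W.XS
import Pool.Agent.Lib_helper13.Robin.W.NL
import Pool.Agent.Lib_helper13.Robin.W.XD
import Pool.Agent.Lib_helper13.Robin.W.RE
import Pool.Agent.Lib_helper13.Robin.W.IE
import Pool.Agent.Lib_helper13.Robin.W.PL
import Pool.Agent.Lib_helper61.Robin.XH1

/-!
# Robin project, block XH: first and second derivatives of `v` are bounded near the edges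
-/

namespace Pool.Agent.Lib_helper61.Robin

open MeasureTheory Set Metric Filter Topology
open scoped RealInnerProductSpace ContDiff
open Pool.Agent.Lib_helper13.Robin

noncomputable section

variable {d m : ℕ} (P : PD d m)

theorem xh_radius {κ : Type} [Finite κ] (r : κ → ℝ) (hr : ∀ k, 0 < r k) :
    ∃ R > 0, ∀ k, R ≤ r k := by
  have h : ∀ᶠ R in 𝓝[>] (0 : ℝ), ∀ k, R ≤ r k := by
    rw [eventually_all]
    intro k
    filter_upwards [Ioo_mem_nhdsGT (hr k)] with R hR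
    exact hR.2.le
  obtain ⟨R, h1, h2⟩ := (h.and self_mem_nhdsWithin).exists
  exact ⟨R, h2, h1⟩

theorem xh_const {κ : Type} [Finite κ] (C : κ → ℝ) : ∃ B ≥ 0, ∀ k, C k ≤ B := by
  obtain ⟨B, hB⟩ := (Set.finite_range C).bddAbove
  exact ⟨max B 0, le_max_right _ _, fun k => (hB ⟨k, rfl⟩).trans (le_max_left _ _)⟩

variable {P}

/-- value at the edge of a Neumann-harmonic function -/
theorem xh_value {q : E d} {i j : Fin m} {e1 e2 : E d} {om R : ℝ} {g : E d → ℝ}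
    (hF : Frame P q i j e1 e2 om) (hC : P.Con q R) (h : NH P (ball q R) g) :
    ∃ r > 0, ∃ C, ∃ g0 : E d → ℝ, ∀ s ∈ (P.N q)ᗮ, ‖s‖ < r → |g0 s| ≤ C ∧
      Tendsto (fun ρ => g (q + s + yy e1 e2 ρ (om / 2))) (𝓝[>] 0) (𝓝 (g0 s)) := by
  obtain ⟨r, hr, -, C, hC0, hexp⟩ := expansion P hF hC h
  choose! w0 c h1 h2 h3 h4 using hexp
  refine ⟨r, hr, C, w0, fun s hs hsr => ⟨h1 s hs hsr, ?_⟩⟩
  have hβ : 0 < Real.pi / om := div_pos Real.pi_pos hF.om0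
  have t1 : Tendsto (fun ρ : ℝ => ρ ^ (Real.pi / om)) (𝓝[>] 0) (𝓝 0) := by
    have := (Real.continuousAt_rpow_const 0 (Real.pi / om) (Or.inr hβ.le)).tendsto
    rw [Real.zero_rpow hβ.ne'] at this
    exact this.mono_left nhdsWithin_le_nhds
  have t2 : Tendsto (fun ρ : ℝ => ρ ^ 2) (𝓝[>] 0) (𝓝 0) := by
    have : Tendsto (fun ρ : ℝ => ρ ^ 2) (𝓝 0) (𝓝 (0 ^ 2)) := (continuous_pow 2).tendsto 0
    rw [zero_pow two_ne_zero] at this
    exact this.mono_left nhdsWithin_le_nhds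
  have t3 : Tendsto (fun ρ : ℝ => |c s| * ρ ^ (Real.pi / om) + C * ρ ^ 2) (𝓝[>] 0) (𝓝 0) := by
    simpa using (t1.const_mul |c s|).add (t2.const_mul C)
  rw [tendsto_iff_dist_tendsto_zero]
  refine squeeze_zero' (Eventually.of_forall fun _ => dist_nonneg) ?_ t3
  filter_upwards [Ioo_mem_nhdsGT hr] with ρ hρ
  have h5 := h4 s hs hsr ρ hρ (om / 2) ⟨by linarith [hF.om0], by linarith [hF.om0]⟩
  have hp : 0 ≤ ρ ^ (Real.pi / om) := Real.rpow_nonneg hρ.1.le _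
  have h6 : |c s * ρ ^ (Real.pi / om) * Real.cos (Real.pi / om * (om / 2))| ≤
      |c s| * ρ ^ (Real.pi / om) := by
    rw [abs_mul, abs_mul, abs_of_nonneg hp]
    exact mul_le_of_le_one_right (by positivity) (Real.abs_cos_le_one _)
  rw [Real.dist_eq]
  rw [abs_le] at h5 h6 ⊢
  constructor <;> linarith [h5.1, h5.2, h6.1, h6.2]

/-- the singular coefficient of `w_q` vanishes -/
theorem xh_czero {v : E d → ℝ} (hv : LV P v) (hq : QC P v) {q γ : E d} {i j : Fin m}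
    {e1 e2 : E d} {om R : ℝ} (hF : Frame P q i j e1 e2 om) (hC : P.Con q R)
    (hγ : ∀ i ∈ P.A q, ⟪P.ν i, γ⟫ = -1) (h : NH P (ball q R) (wp P v q γ)) :
    ∃ r > 0, ∃ C ≥ 0, ∃ w0 : E d → ℝ, ∀ s ∈ (P.N q)ᗮ, ‖s‖ < r →
      ∀ ρ ∈ Ioo 0 r, ∀ θ ∈ Ioo 0 om,
        |wp P v q γ (q + s + yy e1 e2 ρ θ) - w0 s| ≤ C * ρ ^ 2 := by
  obtain ⟨r, hr, hrR, C, hC0, hexp⟩ := expansion P hF hC h
  choose! w0 c h1 h2 h3 h4 using hexp
  have hR := hC.1
  set r' := min r (R / 2) with hr'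
  have hr'0 : 0 < r' := lt_min hr (by positivity)
  have hr'r : r' ≤ r := min_le_left _ _
  have hr'R : r' ≤ R / 2 := min_le_right _ _
  have hmem : ∀ s ∈ (P.N q)ᗮ, ‖s‖ < r' → ∀ ρ ∈ Ioo 0 r', ∀ θ ∈ Ioo 0 om,
      q + s + yy e1 e2 ρ θ ∈ P.Om := by
    intro s hs hsr ρ hρ θ hθ
    refine (xh_mem hF hC hs hρ.1 hθ ?_).1
    have e1 : ‖s‖ ^ 2 ≤ (R / 2) ^ 2 := by gcongr; linarith
    have e2 : ρ ^ 2 ≤ (R / 2) ^ 2 := by
      have := hρ.1.le
      gcongr; linarith [hρ.2]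
    nlinarith
  have hc0 : ∀ s ∈ (P.N q)ᗮ, ‖s‖ < r' → c s = 0 := by
    intro s hs hsr
    have hsr' : ‖s‖ < r := lt_of_lt_of_le hsr hr'r
    by_cases hbig : 2 ≤ Real.pi / om
    · exact h3 s hs hsr' hbig
    have hom : Real.pi / 2 < om := by
      push Not at hbig
      rw [div_lt_iff₀ hF.om0] at hbig
      linarith
    have hi : i ∈ P.A q := by rw [hF.hA]; simp
    have hj : j ∈ P.A q := by rw [hF.hA]; simp
    have hγ1 : ⟪γ, e2⟫ = 1 := by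
      have := hγ i hi
      rw [hF.νi, inner_neg_left, real_inner_comm] at this
      linarith
    have hγ2 : ⟪γ, (-Real.sin om) • e1 + Real.cos om • e2⟫ = -1 := by
      have := hγ j hj
      rw [hF.νj, real_inner_comm] at this
      exact this
    refine qc_kills hom hF.omπ hF.n1 hF.n2 hF.orth hγ1 hγ2 (fun y => v (q + s + y))
      (w0 s + ⟪γ, s⟫ - P.mu / (2 * d) * ‖s‖ ^ 2) (c s) (C + |P.mu / (2 * d)|) r' hr'0 ?_ ?_ ?_
    · intro ρ hρ θ hθ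
      have h5 := h4 s hs hsr' ρ ⟨hρ.1, lt_of_lt_of_le hρ.2 hr'r⟩ θ hθ
      have hn : ‖s + yy e1 e2 ρ θ‖ ^ 2 = ‖s‖ ^ 2 + ρ ^ 2 := by
        rw [xh_norm_add hs (xh_yy_mem hF ρ θ), xh_norm_yy hF.n1 hF.n2 hF.orth hρ.1.le]
      unfold wp at h5
      rw [show q + s + yy e1 e2 ρ θ - q = s + yy e1 e2 ρ θ by abel, hn, inner_add_right] at h5
      have h6 : |P.mu / (2 * d) * ρ ^ 2| = |P.mu / (2 * d)| * ρ ^ 2 := by
        rw [abs_mul, abs_of_nonneg (sq_nonneg ρ)]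
      have h7 := neg_abs_le (P.mu / (2 * d) * ρ ^ 2)
      have h8 := le_abs_self (P.mu / (2 * d) * ρ ^ 2)
      rw [h6] at h7 h8
      rw [abs_le] at h5 ⊢
      have h9 : (C + |P.mu / (2 * d)|) * ρ ^ 2 = C * ρ ^ 2 + |P.mu / (2 * d)| * ρ ^ 2 := by ring
      rw [h9]
      constructor <;> nlinarith [h5.1, h5.2]
    · have hvc : ContinuousOn v P.Om := hv.sm.continuousOn
      refine hvc.comp (by fun_prop) ?_
      rintro z ⟨ρ, hρ, θ, hθ, rfl⟩
      exact hmem s hs hsr ρ hρ θ hθ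
    · rintro x y ⟨ρ, hρ, θ, hθ, rfl⟩ ⟨ρ', hρ', θ', hθ', rfl⟩
      have := hq _ (hmem s hs hsr ρ hρ θ hθ) _ (hmem s hs hsr ρ' hρ' θ' hθ') (1 / 2)
        ⟨by norm_num, by norm_num⟩
      have e : (1 - 1 / 2 : ℝ) • (q + s + yy e1 e2 ρ θ) + (1 / 2 : ℝ) • (q + s + yy e1 e2 ρ' θ') =
          q + s + ((1 / 2 : ℝ) • yy e1 e2 ρ θ + (1 / 2 : ℝ) • yy e1 e2 ρ' θ') := by
        module
      rw [e] at this
      exact this
  refine ⟨r', hr'0, C, hC0, w0, fun s hs hsr ρ hρ θ hθ => ?_⟩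
  have h5 := h4 s hs (lt_of_lt_of_le hsr hr'r) ρ ⟨hρ.1, lt_of_lt_of_le hρ.2 hr'r⟩ θ hθ
  rw [hc0 s hs hsr] at h5
  simpa using h5

theorem xh_quad (A κ : ℝ) (b q x : E d) :
    HasFDerivAt (fun x : E d => A + ⟪b, x - q⟫ - κ * ‖x - q‖ ^ 2)
      (innerSL ℝ b - κ • (2 • innerSL ℝ (x - q))) x := by
  have h0 : HasFDerivAt (fun x : E d => x - q) (ContinuousLinearMap.id ℝ (E d)) x :=
    (hasFDerivAt_id x).sub_const q
  have h1 : HasFDerivAt (fun x : E d => ⟪b, x - q⟫) (innerSL ℝ b) x := by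
    have : HasFDerivAt (fun x : E d => innerSL ℝ b (x - q))
      ((innerSL ℝ b).comp (ContinuousLinearMap.id ℝ (E d))) x :=
      (innerSL ℝ b).hasFDerivAt.comp x h0
    rwa [ContinuousLinearMap.comp_id] at this
  have h2 : HasFDerivAt (fun x : E d => ‖x - q‖ ^ 2) (2 • innerSL ℝ (x - q)) x := by
    have := h0.norm_sq
    rwa [ContinuousLinearMap.comp_id] at this
  exact (h1.const_add A).sub (h2.const_mul κ)

theorem xh_pd_quad (A κ : ℝ) (b q e x : E d) :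
    pd e (fun x : E d => A + ⟪b, x - q⟫ - κ * ‖x - q‖ ^ 2) x = ⟪b, e⟫ - 2 * κ * ⟪x - q, e⟫ := by
  unfold pd
  rw [(xh_quad A κ b q x).fderiv]
  change ⟪b, e⟫ - κ * (2 • ⟪x - q, e⟫) = _
  rw [nsmul_eq_mul]
  push_cast
  ring

theorem xh_pd_lin (A κ : ℝ) (b q e : E d) :
    pd e (fun x : E d => A + ⟪b, x - q⟫ - κ * ‖x - q‖ ^ 2) =
      fun x => (⟪b, e⟫ - 0) + ⟪(-(2 * κ)) • e, x - q⟫ - 0 * ‖x - q‖ ^ 2 := by
  ext x
  rw [xh_pd_quad, real_inner_smul_left, real_inner_comm (x - q) e]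
  ring

theorem xh_pd_pd_quad (A κ : ℝ) (b q e e' x : E d) :
    pd e' (pd e (fun x : E d => A + ⟪b, x - q⟫ - κ * ‖x - q‖ ^ 2)) x = - (2 * κ * ⟪e', e⟫) := by
  rw [xh_pd_lin, xh_pd_quad, real_inner_smul_left, real_inner_comm e e']
  ring

variable (P)

/-- **XH.** first and second derivatives of `v` are bounded near the edges -/
theorem edge_bound {v : E d → ℝ} (hv : LV P v) (hq : QC P v) {q : E d} (hqc : q ∈ P.cl)
    (hr : P.rk q = 2) : ∃ r > 0, ∃ C, ∀ x ∈ P.Om ∩ ball q r,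
      (∀ j, |pd (bv j) v x| ≤ C) ∧ ∀ j k, |pd (bv k) (pd (bv j) v) x| ≤ C := by
  obtain ⟨i, j, e1, e2, om, hF⟩ := P.rk_eq_two hqc hr
  obtain ⟨γ, hγ⟩ := P.exists_gamma hqc
  obtain ⟨R0, hC0⟩ := P.exists_con hqc
  have hNH : NH P (ball q R0) (wp P v q γ) := nh_of_lv P hv hC0 hγ
  set w := wp P v q γ with hw
  obtain ⟨r1, hr1, C1, hC1, w0, hexp⟩ := xh_czero hv hq hF hC0 hγ hNH
  obtain ⟨r2, hr2, hr2R, -, hT⟩ := nh_deriv P hC0 hr.le hNH
  have hC2 : P.Con q r2 := hC0.mono hr2 hr2R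
  obtain ⟨n, b, -⟩ : ∃ n : ℕ, ∃ b : OrthonormalBasis (Fin n) ℝ (P.N q)ᗮ, True :=
    ⟨_, stdOrthonormalBasis ℝ (P.N q)ᗮ, trivial⟩
  set f : Fin n → E d := fun k => (b k : E d) with hf
  have hfL : ∀ k, f k ∈ (P.N q)ᗮ := fun k => (b k).2
  have hfn : ∀ k, ‖f k‖ = 1 := fun k => b.orthonormal.1 k
  -- second tangential derivatives
  have hd2 : ∀ k l, ∃ r > 0, ∃ C, ∀ x ∈ P.Om ∩ ball q r, |pd (f l) (pd (f k) w) x| ≤ C := by
    intro k l
    obtain ⟨r3, hr3, hr3R, -, h3⟩ := nh_deriv P hC2 hr.le (hT _ (hfL k))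
    obtain ⟨r4, hr4, -, ⟨C, hC⟩, -⟩ := nh_deriv P (hC2.mono hr3 hr3R) hr.le (h3 _ (hfL l))
    exact ⟨r4, hr4, C, hC⟩
  choose r4 hr4 C4 hC4 using hd2
  -- values at the edge of the first tangential derivatives
  have hd1 := fun k => xh_value hF hC2 (hT _ (hfL k))
  choose r5 hr5 C5 g0 hg0 using hd1
  obtain ⟨R4, hR4, hR4k⟩ := xh_radius (fun p : Fin n × Fin n => r4 p.1 p.2) fun p => hr4 _ _
  obtain ⟨R5, hR5, hR5k⟩ := xh_radius r5 hr5
  obtain ⟨B4, hB4, hB4k⟩ := xh_const (fun p : Fin n × Fin n => C4 p.1 p.2)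
  obtain ⟨B5, hB5, hB5k⟩ := xh_const C5
  obtain ⟨R, hR, hRa, hRb, hRc, hRd⟩ : ∃ R > 0, R ≤ r1 ∧ R ≤ r2 ∧ R ≤ R4 ∧ R ≤ R5 := by
    refine ⟨min (min r1 r2) (min R4 R5), by positivity, ?_, ?_, ?_, ?_⟩
    · exact (min_le_left _ _).trans (min_le_left _ _)
    · exact (min_le_left _ _).trans (min_le_right _ _)
    · exact (min_le_right _ _).trans (min_le_left _ _)
    · exact (min_le_right _ _).trans (min_le_right _ _)
  have hCR : P.Con q R := hC2.mono hR hRb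
  obtain ⟨Cs, hCs, hscale⟩ := nh_scale P hCR hr
  -- the set S
  have hSo : IsOpen (P.Om ∩ ball q R) := P.isOpen_Om.inter isOpen_ball
  have hSc : Convex ℝ (P.Om ∩ ball q R) := P.convex_Om.inter (convex_ball q R)
  have hwR : NH P (ball q R) w := hNH.mono (ball_subset_ball (hRb.trans hr2R))
  have hTR : ∀ k, NH P (ball q R) (pd (f k) w) := fun k =>
    (hT _ (hfL k)).mono (ball_subset_ball hRb)
  have hdw : DifferentiableOn ℝ w (P.Om ∩ ball q R) := hwR.sm.differentiableOn (by simp)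
  have hdT : ∀ k, DifferentiableOn ℝ (pd (f k) w) (P.Om ∩ ball q R) := fun k =>
    (hTR k).sm.differentiableOn (by simp)
  have hB : ∀ k l, ∀ x ∈ P.Om ∩ ball q R, |pd (f l) (pd (f k) w) x| ≤ B4 := by
    intro k l x hx
    exact (hC4 k l x ⟨hx.1, ball_subset_ball (hRc.trans (hR4k (k, l))) hx.2⟩).trans (hB4k (k, l))
  have hsum : ∀ t ∈ (P.N q)ᗮ, ∑ k, ⟪f k, t⟫ • f k = t := by
    intro t ht
    have h1 := b.sum_repr' ⟨t, ht⟩
    have h2 := congrArg (Subtype.val) h1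
    rw [Submodule.coe_sum] at h2
    exact h2
  have hco : ∀ t : E d, ∀ k, |⟪f k, t⟫| ≤ ‖t‖ := by
    intro t k
    refine (abs_real_inner_le_norm _ _).trans ?_
    rw [hfn, one_mul]
  have hom2 : om / 2 ∈ Ioo 0 om := ⟨by linarith [hF.om0], by linarith [hF.om0]⟩
  -- the value at the edge
  have hw0 : ∀ s ∈ (P.N q)ᗮ, ‖s‖ < R →
      Tendsto (fun ρ => w (q + s + yy e1 e2 ρ (om / 2))) (𝓝[>] 0) (𝓝 (w0 s)) := by
    intro s hs hsR
    have t2 : Tendsto (fun ρ : ℝ => C1 * ρ ^ 2) (𝓝[>] 0) (𝓝 0) := by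
      have : Tendsto (fun ρ : ℝ => C1 * ρ ^ 2) (𝓝 0) (𝓝 (C1 * 0 ^ 2)) :=
        (continuous_const.mul (continuous_pow 2)).tendsto 0
      rw [zero_pow two_ne_zero, mul_zero] at this
      exact this.mono_left nhdsWithin_le_nhds
    rw [tendsto_iff_dist_tendsto_zero]
    refine squeeze_zero' (Eventually.of_forall fun _ => dist_nonneg) ?_ t2
    filter_upwards [Ioo_mem_nhdsGT hr1] with ρ hρ
    rw [Real.dist_eq]
    exact hexp s hs (lt_of_lt_of_le hsR hRa) ρ hρ (om / 2) hom2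
  have hmemS : ∀ s ∈ (P.N q)ᗮ, ‖s‖ < R → ∀ᶠ ρ in 𝓝[>] (0 : ℝ),
      q + s + yy e1 e2 ρ (om / 2) ∈ P.Om ∩ ball q R := by
    intro s hs hsR
    have h1 : 0 < R ^ 2 - ‖s‖ ^ 2 := by
      have := norm_nonneg s
      nlinarith
    filter_upwards [Ioo_mem_nhdsGT (Real.sqrt_pos.2 h1)] with ρ hρ
    refine xh_mem hF hCR hs hρ.1 hom2 ?_
    have h2 : ρ ^ 2 < R ^ 2 - ‖s‖ ^ 2 := by
      have := hρ.2
      rwa [Real.lt_sqrt hρ.1.le] at this
    linarith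
  -- Taylor expansion of the edge value
  have htay : ∀ s ∈ (P.N q)ᗮ, ‖s‖ < R → ∀ t ∈ (P.N q)ᗮ, ‖s + t‖ < R →
      |w0 (s + t) - w0 s - ∑ k, ⟪f k, t⟫ * g0 k s| ≤ (n : ℝ) ^ 2 * B4 * ‖t‖ ^ 2 := by
    intro s hs hsR t ht hstR
    have hst : s + t ∈ (P.N q)ᗮ := Submodule.add_mem _ hs ht
    have l1 := hw0 s hs hsR
    have l2 := hw0 (s + t) hst hstR
    have l3 : Tendsto (fun ρ => ∑ k, ⟪f k, t⟫ * pd (f k) w (q + s + yy e1 e2 ρ (om / 2)))
        (𝓝[>] 0) (𝓝 (∑ k, ⟪f k, t⟫ * g0 k s)) := by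
      refine tendsto_finsetSum _ fun k _ => ?_
      exact ((hg0 k s hs (lt_of_lt_of_le hsR (hRd.trans (hR5k k)))).2).const_mul _
    have l4 := ((l2.sub l1).sub l3).abs
    refine le_of_tendsto l4 ?_
    filter_upwards [hmemS s hs hsR, hmemS (s + t) hst hstR] with ρ hρ1 hρ2
    have e : q + (s + t) + yy e1 e2 ρ (om / 2) =
        q + s + yy e1 e2 ρ (om / 2) + ∑ k, ⟪f k, t⟫ • f k := by
      rw [hsum t ht]; abel
    rw [e] at hρ2 ⊢
    have := xh_taylor hSo hSc f hdw hdT hB (norm_nonneg t) hB4 (hco t) hρ1 hρ2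
    rwa [Fintype.card_fin] at this
  -- constants
  set C' := C1 + (n : ℝ) ^ 2 * B4 with hC'
  have hC'0 : 0 ≤ C' := by positivity
  set κ := P.mu / (2 * d) with hκ
  refine ⟨R / 4, by positivity, Cs * (4 * C') * R + (n * B5 + ‖γ‖) + 2 * |κ| * R +
    (Cs * (4 * C') + 2 * |κ|), fun x hx => ?_⟩
  have hxq : ‖x - q‖ < R / 4 := by
    have := hx.2
    rwa [mem_ball, dist_eq_norm] at this
  set y := (P.N q).starProjection (x - q) with hy
  set s := x - q - y with hs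
  have hyN : y ∈ P.N q := Submodule.starProjection_apply_mem _ _
  have hsL : s ∈ (P.N q)ᗮ := Submodule.sub_starProjection_mem_orthogonal _
  have hxs : x - q = s + y := by rw [hs]; abel
  have hn1 : ‖x - q‖ ^ 2 = ‖s‖ ^ 2 + ‖y‖ ^ 2 := by rw [hxs]; exact xh_norm_add hsL hyN
  have hsn : ‖s‖ < R / 4 := by
    refine lt_of_le_of_lt ?_ hxq
    exact le_of_sq_le_sq (by nlinarith [sq_nonneg ‖y‖]) (norm_nonneg _)
  have hyn : ‖y‖ < R / 4 := by
    refine lt_of_le_of_lt ?_ hxq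
    exact le_of_sq_le_sq (by nlinarith [sq_nonneg ‖s‖]) (norm_nonneg _)
  obtain ⟨ρ, hρ, θ, hθ, hyy⟩ := xh_polar hF hx.1
  have hrho : P.rho q x = ρ := by
    unfold PD.rho
    rw [hyy, xh_norm_yy hF.n1 hF.n2 hF.orth hρ.le]
  have hyρ : ‖y‖ = ρ := by rw [hy, hyy, xh_norm_yy hF.n1 hF.n2 hF.orth hρ.le]
  have hρR : ρ < R / 4 := hyρ ▸ hyn
  -- the affine function
  set a : E d := ∑ k, g0 k s • f k with ha
  have haL : a ∈ (P.N q)ᗮ := Submodule.sum_mem _ fun k _ => Submodule.smul_mem _ _ (hfL k)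
  have han : ‖a‖ ≤ n * B5 := by
    calc ‖a‖ ≤ ∑ k, ‖g0 k s • f k‖ := norm_sum_le _ _
      _ ≤ ∑ _k : Fin n, B5 := by
          refine Finset.sum_le_sum fun k _ => ?_
          rw [norm_smul, hfn, mul_one, Real.norm_eq_abs]
          exact (hg0 k s hsL (by linarith [hR5k k])).1.trans (hB5k k)
      _ = n * B5 := by rw [Finset.sum_const, Finset.card_univ, Fintype.card_fin, nsmul_eq_mul]
  obtain ⟨W, hWd⟩ : ∃ W : E d → ℝ, W = fun x => w x + ((-w0 s + ⟪a, s⟫) + ⟪-a, x - q⟫) := ⟨_, rfl⟩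
  have hWNH : NH P (ball q R) W := by
    rw [hWd]
    exact NH.add isOpen_ball hwR (nh_affine P hCR (Submodule.neg_mem _ haL) _)
  have hWb : ∀ z ∈ P.Om ∩ ball (q + s) (2 * P.rho q x), |W z| ≤ 4 * C' * ρ ^ 2 := by
    intro z hz
    rw [hrho] at hz
    have hz1 : ‖z - (q + s)‖ < 2 * ρ := by
      have := hz.2
      rwa [mem_ball, dist_eq_norm] at this
    obtain ⟨ρ', hρ', θ', hθ', hyy'⟩ := xh_polar hF hz.1
    set y' := (P.N q).starProjection (z - q) with hy'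
    set s' := z - q - y' with hs'
    have hyN' : y' ∈ P.N q := Submodule.starProjection_apply_mem _ _
    have hsL' : s' ∈ (P.N q)ᗮ := Submodule.sub_starProjection_mem_orthogonal _
    have hyρ' : ‖y'‖ = ρ' := by rw [hyy', xh_norm_yy hF.n1 hF.n2 hF.orth hρ'.le]
    have htL : s' - s ∈ (P.N q)ᗮ := Submodule.sub_mem _ hsL' hsL
    have hn2 : ‖z - (q + s)‖ ^ 2 = ‖s' - s‖ ^ 2 + ρ' ^ 2 := by
      rw [show z - (q + s) = (s' - s) + y' by rw [hs']; abel, xh_norm_add htL hyN', hyρ']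
    have hn3 : ‖z - (q + s)‖ ^ 2 < (2 * ρ) ^ 2 := by gcongr
    have hn4 : ‖z - q‖ ^ 2 = ‖s'‖ ^ 2 + ρ' ^ 2 := by
      rw [show z - q = s' + y' by rw [hs']; abel, xh_norm_add hsL' hyN', hyρ']
    have hn5 : ‖z - q‖ < R := by
      calc ‖z - q‖ = ‖(z - (q + s)) + s‖ := by congr 1; abel
        _ ≤ ‖z - (q + s)‖ + ‖s‖ := norm_add_le _ _
        _ < R := by linarith
    have hs'n : ‖s'‖ < R := by
      refine lt_of_le_of_lt ?_ hn5
      exact le_of_sq_le_sq (by nlinarith [sq_nonneg ρ']) (norm_nonneg _)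
    have hρ'n : ρ' < R := by
      refine lt_of_le_of_lt ?_ hn5
      exact le_of_sq_le_sq (by nlinarith [sq_nonneg ‖s'‖]) (norm_nonneg _)
    have b1 : |w z - w0 s'| ≤ C1 * ρ' ^ 2 := by
      have := hexp s' hsL' (lt_of_lt_of_le hs'n hRa) ρ' ⟨hρ', lt_of_lt_of_le hρ'n hRa⟩ θ' hθ'
      rwa [← hyy', show q + s' + y' = z by rw [hs']; abel] at this
    have b2 := htay s hsL (by linarith) (s' - s) htL (by rwa [add_sub_cancel])
    rw [add_sub_cancel] at b2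
    have b3 : ∑ k, ⟪f k, s' - s⟫ * g0 k s = ⟪a, s' - s⟫ := by
      rw [ha, sum_inner]
      refine Finset.sum_congr rfl fun k _ => ?_
      rw [real_inner_smul_left, mul_comm]
    have b4 : ⟪a, y'⟫ = 0 := Submodule.inner_left_of_mem_orthogonal hyN' haL
    have b5 : W z = (w z - w0 s') + (w0 s' - w0 s - ⟪a, s' - s⟫) := by
      have e1 : ⟪a, z - q⟫ = ⟪a, s'⟫ := by
        rw [show z - q = s' + y' by rw [hs']; abel, inner_add_right, b4, add_zero]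
      have e2 : W z = w z + ((-w0 s + ⟪a, s⟫) + ⟪-a, z - q⟫) := by rw [hWd]
      have e3 : ⟪a, s' - s⟫ = ⟪a, s'⟫ - ⟪a, s⟫ := inner_sub_right _ _ _
      rw [e2, inner_neg_left, e1, e3]
      ring
    rw [b3] at b2
    rw [b5]
    refine (abs_add_le _ _).trans ?_
    have b6 : ρ' ^ 2 ≤ 4 * ρ ^ 2 := by nlinarith [sq_nonneg ‖s' - s‖]
    have b7 : ‖s' - s‖ ^ 2 ≤ 4 * ρ ^ 2 := by nlinarith [sq_nonneg ρ']
    have b8 : C1 * ρ' ^ 2 ≤ C1 * (4 * ρ ^ 2) := by gcongr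
    have b9 : (n : ℝ) ^ 2 * B4 * ‖s' - s‖ ^ 2 ≤ (n : ℝ) ^ 2 * B4 * (4 * ρ ^ 2) := by gcongr
    calc _ ≤ C1 * ρ' ^ 2 + (n : ℝ) ^ 2 * B4 * ‖s' - s‖ ^ 2 := add_le_add b1 b2
      _ ≤ C1 * (4 * ρ ^ 2) + (n : ℝ) ^ 2 * B4 * (4 * ρ ^ 2) := add_le_add b8 b9
      _ = 4 * C' * ρ ^ 2 := by rw [hC']; ring
  obtain ⟨g1, g2⟩ := hscale W hWNH x hx s (4 * C' * ρ ^ 2) hsL
    (by rw [show x - q - s = y by rw [hs]; abel]; exact hyN) hWb
  rw [hrho] at g1 g2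
  have g1' : ‖gradient W x‖ ≤ Cs * (4 * C') * R := by
    refine g1.trans ?_
    rw [show Cs * (4 * C' * ρ ^ 2) / ρ = Cs * (4 * C') * ρ by field_simp]
    gcongr; linarith
  have g2' : ∀ j k, |pd (bv k) (pd (bv j) W) x| ≤ Cs * (4 * C') := by
    intro j k
    refine (g2 j k).trans (le_of_eq ?_)
    field_simp
  -- transfer to v
  obtain ⟨Q, hQ⟩ : ∃ Q : E d → ℝ, Q = fun x => (w0 s - ⟪a, s⟫) + ⟪a + γ, x - q⟫ -
      κ * ‖x - q‖ ^ 2 := ⟨_, rfl⟩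
  have hvW : v = fun x => W x + Q x := by
    ext x'
    rw [hWd, hQ, hw]
    unfold wp
    simp only
    rw [inner_add_left, inner_neg_left, hκ]
    ring
  have hWdiff : ∀ x' ∈ P.Om ∩ ball q R, DifferentiableAt ℝ W x' := fun x' hx' =>
    (hWNH.sm.differentiableOn (by simp)).differentiableAt (hSo.mem_nhds hx')
  have hQdiff : ∀ x', DifferentiableAt ℝ Q x' := fun x' => by
    rw [hQ]; exact (xh_quad _ _ _ _ _).differentiableAt
  have hxS : x ∈ P.Om ∩ ball q R := ⟨hx.1, ball_subset_ball (by linarith) hx.2⟩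
  have hp1 : ∀ e : E d, ∀ x' ∈ P.Om ∩ ball q R, pd e v x' = pd e W x' + pd e Q x' := by
    intro e x' hx'
    unfold pd
    rw [hvW, fderiv_fun_add (hWdiff x' hx') (hQdiff x')]
    rfl
  have hWd2 : ∀ e : E d, DifferentiableAt ℝ (pd e W) x := by
    intro e
    have h1 : ContDiffOn ℝ 1 (fun x => fderiv ℝ W x) (P.Om ∩ ball q R) :=
      hWNH.sm.fderiv_of_isOpen hSo (by norm_cast)
    have h2 : ContDiffOn ℝ 1 (fun x => fderiv ℝ W x e) (P.Om ∩ ball q R) :=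
      h1.clm_apply contDiffOn_const
    exact (h2.differentiableOn (by norm_num)).differentiableAt (hSo.mem_nhds hxS)
  have hQd2 : ∀ e : E d, DifferentiableAt ℝ (pd e Q) x := by
    intro e
    rw [hQ, xh_pd_lin]
    exact (xh_quad _ _ _ _ _).differentiableAt
  have hp2 : ∀ e e' : E d, pd e' (pd e v) x = pd e' (pd e W) x + pd e' (pd e Q) x := by
    intro e e'
    have h1 : pd e v =ᶠ[𝓝 x] fun x' => pd e W x' + pd e Q x' := by
      filter_upwards [hSo.mem_nhds hxS] with x' hx'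
      exact hp1 e x' hx'
    change fderiv ℝ (pd e v) x e' = fderiv ℝ (pd e W) x e' + fderiv ℝ (pd e Q) x e'
    have h3 := fderiv_fun_add (hWd2 e) (hQd2 e)
    rw [h1.fderiv_eq, h3]
    rfl
  have hbv : ∀ j : Fin d, ‖(bv j : E d)‖ = 1 := fun j => by simp [bv]
  have hpos1 : 0 ≤ Cs * (4 * C') * R := by positivity
  have hpos2 : 0 ≤ Cs * (4 * C') := by positivity
  have hpos3 : 0 ≤ (n : ℝ) * B5 + ‖γ‖ := by positivity
  have hpos4 : 0 ≤ 2 * |κ| * R := by positivity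
  have hpos5 : 0 ≤ 2 * |κ| := by positivity
  constructor
  · intro l
    rw [hp1 (bv l) x hxS, hQ, xh_pd_quad]
    have c1 : |pd (bv l) W x| ≤ Cs * (4 * C') * R := by
      have : pd (bv l) W x = ⟪gradient W x, bv l⟫ := by rw [inner_gradient_left]; rfl
      rw [this]
      refine (abs_real_inner_le_norm _ _).trans ?_
      rw [hbv, mul_one]; exact g1'
    have c2 : |⟪a + γ, (bv l : E d)⟫| ≤ n * B5 + ‖γ‖ := by
      refine (abs_real_inner_le_norm _ _).trans ?_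
      rw [hbv, mul_one]
      exact (norm_add_le _ _).trans (by linarith)
    have c3 : |2 * κ * ⟪x - q, (bv l : E d)⟫| ≤ 2 * |κ| * R := by
      rw [abs_mul, abs_mul, abs_of_pos (two_pos : (0 : ℝ) < 2)]
      have : |⟪x - q, (bv l : E d)⟫| ≤ R := by
        refine (abs_real_inner_le_norm _ _).trans ?_
        rw [hbv, mul_one]; linarith
      gcongr
    have c4 := abs_add_le (pd (bv l) W x) (⟪a + γ, (bv l : E d)⟫ - 2 * κ * ⟪x - q, (bv l : E d)⟫)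
    have c5 := abs_sub (⟪a + γ, (bv l : E d)⟫) (2 * κ * ⟪x - q, (bv l : E d)⟫)
    linarith
  · intro l k
    rw [hp2 (bv l) (bv k), hQ, xh_pd_pd_quad]
    have c1 := g2' l k
    have c2 : |-(2 * κ * ⟪(bv k : E d), (bv l : E d)⟫)| ≤ 2 * |κ| := by
      rw [abs_neg, abs_mul, abs_mul, abs_of_pos (two_pos : (0 : ℝ) < 2)]
      have : |⟪(bv k : E d), (bv l : E d)⟫| ≤ 1 := by
        refine (abs_real_inner_le_norm _ _).trans ?_
        rw [hbv, hbv, mul_one]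
      calc 2 * |κ| * |⟪(bv k : E d), (bv l : E d)⟫| ≤ 2 * |κ| * 1 := by gcongr
        _ = 2 * |κ| := mul_one _
    have c3 := abs_add_le (pd (bv k) (pd (bv l) W) x) (-(2 * κ * ⟪(bv k : E d), (bv l : E d)⟫))
    linarith

end

end Pool.Agent.Lib_helper61.Robin
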