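import Pool.Agent.Lib_helper61.Robin.Base

/-!
# Robin project, block LB: bounds for the eigenvalue
-/

namespace Pool.Agent.Lib_helper61.Robin

open MeasureTheory Set Metric Filter Topology
open scoped RealInnerProductSpace ContDiff
open Pool.Agent.Lib_helper13.Robin

noncomputable section

variable {d m : ℕ} (P : PD d m)

theorem rb_RGS_HH {α lam : ℝ} {u : E d → ℝ} (h : RGS P.Om α lam u) : HH P u where
  c := by rw [← P.closure_Om]; exact h.cont
  s := h.smooth
  g := h.energy

theorem rb_weak {α lam : ℝ} {u φ : E d → ℝ} (h : RGS P.Om α lam u) (hφ : HH P φ) :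
    (∫ x in P.Om, ⟪gradient u x, gradient φ x⟫) + α * P.bdI (fun x => u x * φ x)
      = lam * ∫ x in P.Om, u x * φ x :=
  h.weak φ (by rw [P.closure_Om]; exact hφ.c) hφ.s hφ.g

theorem rb_pos_int {α lam : ℝ} {u : E d → ℝ} (h : RGS P.Om α lam u) :
    0 < ∫ x in P.Om, u x := by
  have hi : IntegrableOn u P.Om := rb_int_om P (rb_RGS_HH P h).c
  rw [setIntegral_pos_iff_support_of_nonneg_ae]
  · have : Function.support u ∩ P.Om = P.Om := by
      ext x
      simp only [mem_inter_iff, Function.mem_support, and_iff_right_iff_imp]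
      exact fun hx => (h.pos x hx).ne'
    rw [this]
    exact P.isOpen_Om.measure_pos _ P.nonempty_Om
  · filter_upwards [ae_restrict_mem P.measurableSet_Om] with x hx
    exact (h.pos x hx).le
  · exact hi

theorem rb_one {α lam : ℝ} {u : E d → ℝ} (h : RGS P.Om α lam u) :
    α * P.bdI u = lam * ∫ x in P.Om, u x := by
  have := rb_weak P h (HH.const 1)
  simpa [gradient_fun_const] using this

theorem rb_inv {u : E d → ℝ} (hu : HH P u) (h0 : ∀ x ∈ P.cl, 0 ≤ u x) {δ : ℝ} (hδ : 0 < δ) :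
    HH P (fun x => (u x + δ)⁻¹) ∧ ∀ x ∈ P.Om,
      gradient (fun x => (u x + δ)⁻¹) x = (-((u x + δ) ^ 2)⁻¹) • gradient u x := by
  have hg : ∀ x ∈ P.Om,
      gradient (fun x => (u x + δ)⁻¹) x = (-((u x + δ) ^ 2)⁻¹) • gradient u x := by
    intro x hx
    have h1 : u x + δ ≠ 0 := by have := h0 x (P.Om_sub_cl hx); positivity
    have h2 : HasFDerivAt (fun x => u x + δ) (fderiv ℝ u x) x :=
      (hu.diff hx).hasFDerivAt.add_const δ
    have h3 := (hasDerivAt_inv h1).comp_hasFDerivAt x h2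
    have h4 : fderiv ℝ (fun x => (u x + δ)⁻¹) x = (-((u x + δ) ^ 2)⁻¹) • fderiv ℝ u x := h3.fderiv
    unfold gradient
    rw [h4, map_smul]
  have hc : ContinuousOn (fun x => (u x + δ)⁻¹) P.cl := by
    refine (hu.c.add continuousOn_const).inv₀ fun x hx => ?_
    have := h0 x hx
    exact ne_of_gt (by positivity : 0 < u x + δ)
  refine ⟨⟨hc, ?_, ?_⟩, hg⟩
  · refine (hu.s.add contDiffOn_const).inv fun x hx => ?_
    have := h0 x (P.Om_sub_cl hx)
    exact ne_of_gt (by positivity : 0 < u x + δ)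
  · have hi : IntegrableOn (fun x => (δ ^ 4)⁻¹ * ‖gradient u x‖ ^ 2) P.Om := hu.g.const_mul _
    have hs : ContDiffOn ℝ 1 (fun x => (u x + δ)⁻¹) P.Om := by
      refine (hu.s.add contDiffOn_const).inv fun x hx => ?_
      have := h0 x (P.Om_sub_cl hx)
      exact ne_of_gt (by positivity : 0 < u x + δ)
    refine Integrable.mono' hi (((rb_grad_cont hs).aestronglyMeasurable
      P.measurableSet_Om).norm.pow 2) ?_
    filter_upwards [ae_restrict_mem P.measurableSet_Om] with x hx
    rw [hg x hx, norm_smul, mul_pow, Real.norm_eq_abs, Real.norm_eq_abs, abs_of_nonneg (by positivity),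
      sq_abs, neg_sq, inv_pow, ← pow_mul]
    have h1 := h0 x (P.Om_sub_cl hx)
    gcongr
    · linarith

/-- **LB.** -/
theorem lam_bound {α lam : ℝ} {u : E d → ℝ} (hα : 0 < α) (h : RGS P.Om α lam u) :
    0 ≤ lam ∧ lam ≤ P.mu * α := by
  have hH := rb_RGS_HH P h
  have h0 : ∀ x ∈ P.cl, 0 ≤ u x := rb_nonneg_cl P h.cont h.pos
  have hpos := rb_pos_int P h
  have h1 := rb_one P h
  have hb : 0 ≤ P.bdI u := rb_bdI_nonneg P h0
  have hlam : 0 ≤ lam := by
    by_contra hn
    push Not at hn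
    have : lam * ∫ x in P.Om, u x < 0 := mul_neg_of_neg_of_pos hn hpos
    have h2 : 0 ≤ α * P.bdI u := mul_nonneg hα.le hb
    linarith
  refine ⟨hlam, ?_⟩
  -- the test function 1/(u+δ)
  have key : ∀ δ > 0, lam * ∫ x in P.Om, u x * (u x + δ)⁻¹ ≤ α * P.bdI (fun _ => 1) := by
    intro δ hδ
    obtain ⟨hφ, hg⟩ := rb_inv P hH h0 hδ
    have hw := rb_weak P h hφ
    have e1 : ∫ x in P.Om, ⟪gradient u x, gradient (fun x => (u x + δ)⁻¹) x⟫ ≤ 0 := by
      refine setIntegral_nonpos P.measurableSet_Om fun x hx => ?_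
      rw [hg x hx, inner_smul_right, real_inner_self_eq_norm_sq]
      have := h0 x (P.Om_sub_cl hx)
      have : 0 ≤ ((u x + δ) ^ 2)⁻¹ * ‖gradient u x‖ ^ 2 := by positivity
      linarith
    have e2 : P.bdI (fun x => u x * (u x + δ)⁻¹) ≤ P.bdI (fun _ => 1) := by
      refine rb_bdI_mono P (hH.c.mul hφ.c) continuousOn_const fun x hx => ?_
      have := h0 x hx
      rw [← div_eq_mul_inv, div_le_one (by positivity)]
      linarith
    have e3 := mul_le_mul_of_nonneg_left e2 hα.le
    linarith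
  have hlim : Tendsto (fun n : ℕ => lam * ∫ x in P.Om, u x * (u x + 1 / ((n : ℝ) + 1))⁻¹) atTop
      (𝓝 (lam * ∫ x in P.Om, (1 : ℝ))) := by
    refine Tendsto.const_mul _ ?_
    refine tendsto_integral_of_dominated_convergence (fun _ => (1 : ℝ)) ?_ ?_ ?_ ?_
    · intro n
      have hn : (0 : ℝ) < 1 / ((n : ℝ) + 1) := by positivity
      exact ((hH.c.mul (rb_inv P hH h0 hn).1.c).mono P.Om_sub_cl).aestronglyMeasurable
        P.measurableSet_Om
    · exact integrable_const _
    · intro n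
      filter_upwards [ae_restrict_mem P.measurableSet_Om] with x hx
      have h2 := h0 x (P.Om_sub_cl hx)
      have hn : (0 : ℝ) < 1 / ((n : ℝ) + 1) := by positivity
      rw [← div_eq_mul_inv, Real.norm_eq_abs, abs_of_nonneg (by positivity),
        div_le_one (by positivity)]
      linarith
    · filter_upwards [ae_restrict_mem P.measurableSet_Om] with x hx
      have h2 := h.pos x hx
      have h3 : Tendsto (fun n : ℕ => u x + 1 / ((n : ℝ) + 1)) atTop (𝓝 (u x + 0)) :=
        tendsto_const_nhds.add tendsto_one_div_add_atTop_nhds_zero_nat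
      have h4 : Tendsto (fun n : ℕ => u x * (u x + 1 / ((n : ℝ) + 1))⁻¹) atTop
          (𝓝 (u x * (u x + 0)⁻¹)) := (h3.inv₀ (by rw [add_zero]; exact h2.ne')).const_mul _
      rwa [add_zero, mul_inv_cancel₀ h2.ne'] at h4
  have hle : lam * ∫ x in P.Om, (1 : ℝ) ≤ α * P.bdI (fun _ => 1) :=
    le_of_tendsto hlim (Eventually.of_forall fun n => key _ (by positivity))
  have hv : ∫ x in P.Om, (1 : ℝ) = P.vol := by
    simp [PD.vol, Measure.real]
  rw [hv] at hle
  have hvp := P.vol_pos
  unfold PD.mu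
  rw [div_mul_eq_mul_div, le_div_iff₀ hvp]
  linarith

end

end Pool.Agent.Lib_helper61.Robin
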