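import Pool.Agent.Lib_helper13.Robin.W.NL
import Pool.Agent.Lib_helper13.Robin.W.PL
import Pool.Agent.Lib_helper13.Robin.W.S1
import Pool.Agent.Lib_helper13.Robin.W.S2
import Pool.Agent.Lib_helper13.Robin.W.PO
import Pool.Agent.Lib_helper13.Robin.W.TR

/-!
# Robin project: integrability tools on a polyhedral domain
-/

namespace Pool.Agent.Lib_helper61.Robin

open MeasureTheory Set Metric Filter Topology
open scoped RealInnerProductSpace ContDiff
open Pool.Agent.Lib_helper13.Robin

noncomputable section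

variable {d m : ℕ} (P : PD d m)

theorem rb_frontier_sub : frontier P.Om ⊆ ⋃ i, P.Sig i := by
  rw [P.frontier_Om]
  rintro x ⟨hx, i, hi⟩
  exact mem_iUnion.2 ⟨i, hx, hi⟩

theorem rb_frontier_lt_top : μHE[d - 1] (frontier P.Om) < ⊤ := by
  refine lt_of_le_of_lt (measure_mono (rb_frontier_sub P)) ?_
  refine lt_of_le_of_lt (measure_iUnion_fintype_le _ _) ?_
  exact ENNReal.sum_lt_top.2 fun i _ => Sig_lt_top P i

theorem rb_frontier_sub_cl : frontier P.Om ⊆ P.cl := by
  rw [P.frontier_Om]; exact fun x hx => hx.1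

theorem rb_ms_frontier : MeasurableSet (frontier P.Om) := isClosed_frontier.measurableSet

instance rb_finite_frontier : IsFiniteMeasure ((μHE[d - 1] : Measure (E d)).restrict
    (frontier P.Om)) := ⟨by simpa using rb_frontier_lt_top P⟩

theorem rb_bound {f : E d → ℝ} (hf : ContinuousOn f P.cl) : ∃ C, ∀ x ∈ P.cl, |f x| ≤ C := by
  obtain ⟨C, hC⟩ := P.isCompact_cl.exists_bound_of_continuousOn hf
  exact ⟨C, fun x hx => hC x hx⟩

theorem rb_int_bd {f : E d → ℝ} (hf : ContinuousOn f P.cl) :
    IntegrableOn f (frontier P.Om) μHE[d - 1] := by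
  obtain ⟨C, hC⟩ := rb_bound P hf
  have := rb_finite_frontier P
  refine Integrable.of_bound
    ((hf.mono (rb_frontier_sub_cl P)).aestronglyMeasurable (rb_ms_frontier P)) C ?_
  · filter_upwards [ae_restrict_mem (rb_ms_frontier P)] with x hx
    exact hC x (rb_frontier_sub_cl P hx)

theorem rb_int_om {f : E d → ℝ} (hf : ContinuousOn f P.cl) : IntegrableOn f P.Om := by
  obtain ⟨C, hC⟩ := rb_bound P hf
  refine Integrable.of_bound
    ((hf.mono P.Om_sub_cl).aestronglyMeasurable P.measurableSet_Om) C ?_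
  · filter_upwards [ae_restrict_mem P.measurableSet_Om] with x hx
    exact hC x (P.Om_sub_cl hx)

/-- the class of test functions -/
structure HH (f : E d → ℝ) : Prop where
  c : ContinuousOn f P.cl
  s : ContDiffOn ℝ 1 f P.Om
  g : IntegrableOn (fun x => ‖gradient f x‖ ^ 2) P.Om

variable {P}

theorem HH.diff {f : E d → ℝ} (h : HH P f) {x : E d} (hx : x ∈ P.Om) :
    DifferentiableAt ℝ f x :=
  (h.s.differentiableOn (by norm_num)).differentiableAt (P.isOpen_Om.mem_nhds hx)

theorem rb_grad_cont {f : E d → ℝ} (h : ContDiffOn ℝ 1 f P.Om) :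
    ContinuousOn (fun x => gradient f x) P.Om := by
  have h1 : ContinuousOn (fun x => fderiv ℝ f x) P.Om :=
    h.continuousOn_fderiv_of_isOpen P.isOpen_Om (by norm_num)
  exact (LinearIsometryEquiv.continuous _).comp_continuousOn h1

theorem HH.gm {f : E d → ℝ} (h : HH P f) :
    AEStronglyMeasurable (fun x => gradient f x) (volume.restrict P.Om) :=
  (rb_grad_cont h.s).aestronglyMeasurable P.measurableSet_Om

theorem HH.inner_int {f g : E d → ℝ} (hf : HH P f) (hg : HH P g) :
    IntegrableOn (fun x => ⟪gradient f x, gradient g x⟫) P.Om := by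
  refine Integrable.mono' (hf.g.add hg.g) (hf.gm.inner hg.gm) ?_
  filter_upwards with x
  rw [Real.norm_eq_abs]
  refine (abs_real_inner_le_norm _ _).trans ?_
  have := sq_nonneg (‖gradient f x‖ - ‖gradient g x‖)
  simp only [Pi.add_apply]
  nlinarith [norm_nonneg (gradient f x), norm_nonneg (gradient g x)]

theorem rb_grad_lin {f g : E d → ℝ} {x : E d} (hf : DifferentiableAt ℝ f x)
    (hg : DifferentiableAt ℝ g x) (a b c : ℝ) :
    gradient (fun y => a * f y + b * g y + c) x = a • gradient f x + b • gradient g x := by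
  have h1 : fderiv ℝ (fun y => a * f y + b * g y + c) x = a • fderiv ℝ f x + b • fderiv ℝ g x := by
    have := ((hf.hasFDerivAt.const_mul a).add (hg.hasFDerivAt.const_mul b)).add_const c
    exact this.fderiv
  unfold gradient
  rw [h1, map_add, map_smul, map_smul]

theorem HH.lin {f g : E d → ℝ} (hf : HH P f) (hg : HH P g) (a b c : ℝ) :
    HH P (fun y => a * f y + b * g y + c) where
  c := ((continuousOn_const.mul hf.c).add (continuousOn_const.mul hg.c)).add continuousOn_const
  s := ((contDiffOn_const.mul hf.s).add (contDiffOn_const.mul hg.s)).add contDiffOn_const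
  g := by
    have hi : IntegrableOn (fun x => 2 * a ^ 2 * ‖gradient f x‖ ^ 2 + 2 * b ^ 2 *
        ‖gradient g x‖ ^ 2) P.Om := (hf.g.const_mul _).add (hg.g.const_mul _)
    refine Integrable.mono' hi ?_ ?_
    · have : AEStronglyMeasurable (fun x => a • gradient f x + b • gradient g x)
        (volume.restrict P.Om) := (hf.gm.const_smul a).add (hg.gm.const_smul b)
      refine (this.norm.pow 2).congr ?_
      filter_upwards [ae_restrict_mem P.measurableSet_Om] with x hx
      rw [rb_grad_lin (hf.diff hx) (hg.diff hx)]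
      rfl
    · filter_upwards [ae_restrict_mem P.measurableSet_Om] with x hx
      rw [rb_grad_lin (hf.diff hx) (hg.diff hx), Real.norm_eq_abs, abs_of_nonneg (by positivity)]
      have h1 : ‖a • gradient f x + b • gradient g x‖ ≤
          |a| * ‖gradient f x‖ + |b| * ‖gradient g x‖ := by
        refine (norm_add_le _ _).trans ?_
        rw [norm_smul, norm_smul, Real.norm_eq_abs, Real.norm_eq_abs]
      have h2 : ‖a • gradient f x + b • gradient g x‖ ^ 2 ≤
          (|a| * ‖gradient f x‖ + |b| * ‖gradient g x‖) ^ 2 :=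
        pow_le_pow_left₀ (norm_nonneg _) h1 2
      have h3 := sq_nonneg (|a| * ‖gradient f x‖ - |b| * ‖gradient g x‖)
      have h4 : |a| ^ 2 = a ^ 2 := sq_abs a
      have h5 : |b| ^ 2 = b ^ 2 := sq_abs b
      nlinarith

theorem HH.const (c : ℝ) : HH P (fun _ => c) where
  c := continuousOn_const
  s := contDiffOn_const
  g := by
    simp only [gradient_fun_const]
    simp

variable (P)

theorem rb_bdI_mono {f g : E d → ℝ} (hf : ContinuousOn f P.cl) (hg : ContinuousOn g P.cl)
    (h : ∀ x ∈ P.cl, f x ≤ g x) : P.bdI f ≤ P.bdI g := by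
  unfold PD.bdI
  exact setIntegral_mono_on (rb_int_bd P hf) (rb_int_bd P hg) (rb_ms_frontier P)
    fun x hx => h x (rb_frontier_sub_cl P hx)

theorem rb_bdI_nonneg {f : E d → ℝ} (h : ∀ x ∈ P.cl, 0 ≤ f x) : 0 ≤ P.bdI f := by
  unfold PD.bdI
  exact setIntegral_nonneg (rb_ms_frontier P) fun x hx => h x (rb_frontier_sub_cl P hx)

theorem rb_nonneg_cl {u : E d → ℝ} (hc : ContinuousOn u (closure P.Om))
    (hp : ∀ x ∈ P.Om, 0 < u x) : ∀ x ∈ P.cl, 0 ≤ u x := by
  rw [← P.closure_Om]
  intro x hx
  have h1 : u x ∈ closure (u '' P.Om) := by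
    exact (hc x hx).mono subset_closure |>.mem_closure_image hx
  refine closure_minimal ?_ isClosed_Ici h1
  rintro _ ⟨y, hy, rfl⟩
  exact (hp y hy).le

end

end Pool.Agent.Lib_helper61.Robin
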